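import Mathlib

/-!
Definitions and intermediate statements for the counterexample to the ratio limit property
for the 4-Laplacian in the plane (MP_8d56bc_an), singular point infinity.
-/

set_option autoImplicit false

open MeasureTheory Set Filter Topology

namespace Pool.Agent.Helper82.PL

/-- the Euclidean plane -/
abbrev E2 := EuclideanSpace ℝ (Fin 2)

/-- the exterior domain -/
def D : Set E2 := {x | 1 < ‖x‖}

/-- admissible perturbations -/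
def IsAdm (w : E2 → ℝ) : Prop :=
  (∃ K : NNReal, LipschitzWith K w) ∧ HasCompactSupport w ∧ tsupport w ⊆ D

/-- energy in logarithmic form -/
noncomputable def J (b0 V w : E2 → ℝ) : ℝ :=
  ∫ x in D, Real.exp (4 * (b0 x + w x)) * (‖gradient b0 x + gradient w x‖ ^ 4 + V x)

/-- base data for the direct method -/
structure Base (b0 V : E2 → ℝ) (C0 : ℝ) : Prop where
  c1 : ContDiffOn ℝ 1 b0 D
  bd : ∀ x ∈ D, |b0 x| ≤ C0
  gd : ∀ x ∈ D, ‖gradient b0 x‖ ≤ C0 / ‖x‖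
  vm : Measurable V
  vb : ∀ x ∈ D, |V x| ≤ C0 / ‖x‖ ^ 4

/-- the two coordinate vectors -/
noncomputable def e0 : E2 := EuclideanSpace.single 0 1
noncomputable def e1 : E2 := EuclideanSpace.single 1 1

/-- divergence of a plane vector field -/
noncomputable def dv (F : E2 → E2) (x : E2) : ℝ := (fderiv ℝ F x e0) 0 + (fderiv ℝ F x e1) 1

/-- flux of the 4-Laplacian -/
noncomputable def flux (β : E2 → ℝ) (x : E2) : E2 := ‖gradient β x‖ ^ 2 • gradient β x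

/-- logarithmic 4-Laplacian: for u = exp β one has Δ_4 u / u^3 = LL β -/
noncomputable def LL (β : E2 → ℝ) (x : E2) : ℝ := dv (flux β) x + 3 * ‖gradient β x‖ ^ 4

/-! ### Statements of the abstract part -/

/-- integration by parts against a Lipschitz function with compact support -/
def stmtIBP : Prop :=
  ∀ (S : Set E2), IsOpen S → ∀ (F : E2 → E2), ContDiffOn ℝ 1 F S →
    ∀ ζ : E2 → ℝ, (∃ K : NNReal, LipschitzWith K ζ) → HasCompactSupport ζ → tsupport ζ ⊆ S →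
    Integrable (fun x => inner ℝ (F x) (gradient ζ x)) ∧ Integrable (fun x => dv F x * ζ x) ∧
    ∫ x, inner ℝ (F x) (gradient ζ x) = - ∫ x, dv F x * ζ x

/-- a function that vanishes off a compact subset of an open set and is locally Lipschitz there
is Lipschitz -/
def stmtExt : Prop :=
  ∀ (S K : Set E2) (f : E2 → ℝ), IsOpen S → IsCompact K → K ⊆ S → (∀ x, x ∉ K → f x = 0) →
    LocallyLipschitzOn S f → ∃ L : NNReal, LipschitzWith L f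

/-- Morrey's inequality for exponent 4 in the plane -/
def stmtMorrey : Prop :=
  ∃ C : ℝ, 0 < C ∧ ∀ w : E2 → ℝ, (∃ K : NNReal, LipschitzWith K w) → HasCompactSupport w →
    ∀ x y : E2, |w x - w y| ^ 4 ≤ C * ‖x - y‖ ^ 2 * ∫ z, ‖gradient w z‖ ^ 4

/-- integrability of the energy density -/
def stmtInt : Prop :=
  ∀ (b0 V : E2 → ℝ) (C0 : ℝ), Base b0 V C0 → ∀ w, IsAdm w →
    Integrable (fun x => ‖gradient w x‖ ^ 4) ∧
    IntegrableOn (fun x => Real.exp (4 * (b0 x + w x)) * ‖gradient b0 x + gradient w x‖ ^ 4) D ∧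
    IntegrableOn (fun x => Real.exp (4 * (b0 x + w x)) * V x) D

/-- the energy controls the gradient -/
def stmtLow : Prop :=
  ∀ (b0 V : E2 → ℝ) (C0 : ℝ), Base b0 V C0 → ∃ B : ℝ, ∀ w, IsAdm w → (∀ x ∈ D, |w x| ≤ C0) →
    (∫ x in D, Real.exp (4 * (b0 x + w x)) * ‖gradient b0 x + gradient w x‖ ^ 4) ≤ J b0 V w + B

/-- hidden convexity -/
def stmtMid : Prop :=
  ∀ (b0 V : E2 → ℝ) (C0 : ℝ), Base b0 V C0 → ∃ c : ℝ, 0 < c ∧ ∀ w1 w2 : E2 → ℝ,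
    IsAdm w1 → IsAdm w2 → (∀ x ∈ D, |w1 x| ≤ C0) → (∀ x ∈ D, |w2 x| ≤ C0) →
    ∃ w, IsAdm w ∧ J b0 V w + c * (∫ x, ‖gradient w1 x - gradient w2 x‖ ^ 4) ≤
      (J b0 V w1 + J b0 V w2) / 2

/-- Euler-Lagrange along an almost minimizing sequence -/
def stmtEL : Prop :=
  ∀ (b0 V : E2 → ℝ) (C0 : ℝ), Base b0 V C0 → ∀ (j : ℝ), (∀ w, IsAdm w → j ≤ J b0 V w) →
    ∀ (w : ℕ → E2 → ℝ), (∀ n, IsAdm (w n)) → (∀ n, ∀ x ∈ D, |w n x| ≤ C0) →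
    Tendsto (fun n => J b0 V (w n)) atTop (𝓝 j) →
    ∀ φ : E2 → ℝ, ContDiff ℝ (⊤ : ℕ∞) φ → HasCompactSupport φ → tsupport φ ⊆ D →
    Tendsto (fun n => ∫ x, (Real.exp (b0 x + w n x)) ^ 3 *
      (‖gradient b0 x + gradient (w n) x‖ ^ 2 *
        inner ℝ (gradient b0 x + gradient (w n) x) (gradient φ x) + V x * φ x)) atTop (𝓝 0)

/-- extraction of the limit -/
def stmtLim : Prop :=
  ∀ (w : ℕ → E2 → ℝ), (∀ n, IsAdm (w n)) →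
    (∀ ε > 0, ∃ N, ∀ n ≥ N, ∀ m ≥ N, ∫ x, ‖gradient (w n) x - gradient (w m) x‖ ^ 4 < ε) →
    ∃ (wl : E2 → ℝ) (G : E2 → E2), Continuous wl ∧ AEStronglyMeasurable G volume ∧
      Integrable (fun x => ‖G x‖ ^ 4) ∧
      (∀ K : Set E2, IsCompact K → TendstoUniformlyOn w wl atTop K) ∧
      Tendsto (fun n => ∫ x, ‖gradient (w n) x - G x‖ ^ 4) atTop (𝓝 0)

/-- passing to the limit -/
def stmtPass : Prop :=
  ∀ (b0 V : E2 → ℝ) (C0 : ℝ), Base b0 V C0 → ∀ (w : ℕ → E2 → ℝ), (∀ n, IsAdm (w n)) →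
    ∀ (wl : E2 → ℝ) (G : E2 → E2), Continuous wl → AEStronglyMeasurable G volume →
      Integrable (fun x => ‖G x‖ ^ 4) →
      (∀ K : Set E2, IsCompact K → TendstoUniformlyOn w wl atTop K) →
      Tendsto (fun n => ∫ x, ‖gradient (w n) x - G x‖ ^ 4) atTop (𝓝 0) →
    ∀ φ : E2 → ℝ, ContDiff ℝ (⊤ : ℕ∞) φ → HasCompactSupport φ → tsupport φ ⊆ D →
    Tendsto (fun n => ∫ x, (Real.exp (b0 x + w n x)) ^ 3 *
      (‖gradient b0 x + gradient (w n) x‖ ^ 2 *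
        inner ℝ (gradient b0 x + gradient (w n) x) (gradient φ x) + V x * φ x)) atTop
      (𝓝 (∫ x, (Real.exp (b0 x + wl x)) ^ 3 *
      (‖gradient b0 x + G x‖ ^ 2 *
        inner ℝ (gradient b0 x + G x) (gradient φ x) + V x * φ x))) ∧
    ∫ x, Real.exp (b0 x + wl x) • gradient φ x =
      - ∫ x, φ x • (Real.exp (b0 x + wl x) • (gradient b0 x + G x))

/-- the abstract existence theorem -/
def stmtExist : Prop :=
  ∀ (b0 V : E2 → ℝ) (C0 : ℝ), Base b0 V C0 → ∀ (lo up : E2 → ℝ),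
    (∀ x ∈ D, -C0 ≤ lo x) → (∀ x ∈ D, up x ≤ C0) →
    (∀ w, IsAdm w → ∃ w', IsAdm w' ∧ (∀ x ∈ D, lo x ≤ w' x ∧ w' x ≤ up x) ∧
      J b0 V w' ≤ J b0 V w) →
    ∃ (v : E2 → ℝ) (g : E2 → E2), ContinuousOn v D ∧
      (∀ x ∈ D, Real.exp (b0 x + lo x) ≤ v x ∧ v x ≤ Real.exp (b0 x + up x)) ∧
      LocallyIntegrableOn g D ∧ LocallyIntegrableOn (fun x => ‖g x‖ ^ 4) D ∧
      ∀ φ : E2 → ℝ, ContDiff ℝ (⊤ : ℕ∞) φ → HasCompactSupport φ → tsupport φ ⊆ D →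
        ((∫ x, v x • gradient φ x) = -∫ x, φ x • g x) ∧
        (∫ x, (‖g x‖ ^ 2 * inner ℝ (g x) (gradient φ x) + V x * v x ^ 3 * φ x)) = 0

/-- truncation from above by a supersolution -/
def stmtTruncUp : Prop :=
  ∀ (b0 V : E2 → ℝ) (C0 : ℝ), Base b0 V C0 → ∀ (S : Set E2), IsOpen S → S ⊆ D →
    ∀ β : E2 → ℝ, ContDiffOn ℝ 1 β S → ContDiffOn ℝ 1 (flux β) S → (∀ x ∈ S, LL β x ≤ V x) →
    ∀ w, IsAdm w → ∀ K : Set E2, IsCompact K → K ⊆ S →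
    (∀ x ∈ S, x ∉ K → b0 x + w x ≤ β x) →
    ∃ w', IsAdm w' ∧ J b0 V w' ≤ J b0 V w ∧ (∀ x ∈ S, w' x = min (w x) (β x - b0 x)) ∧
      (∀ x, x ∉ S → w' x = w x)

/-- truncation from below by a subsolution -/
def stmtTruncDown : Prop :=
  ∀ (b0 V : E2 → ℝ) (C0 : ℝ), Base b0 V C0 → ∀ (S : Set E2), IsOpen S → S ⊆ D →
    ∀ β : E2 → ℝ, ContDiffOn ℝ 1 β S → ContDiffOn ℝ 1 (flux β) S → (∀ x ∈ S, V x ≤ LL β x) →
    ∀ w, IsAdm w → ∀ K : Set E2, IsCompact K → K ⊆ S →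
    (∀ x ∈ S, x ∉ K → β x ≤ b0 x + w x) →
    ∃ w', IsAdm w' ∧ J b0 V w' ≤ J b0 V w ∧ (∀ x ∈ S, w' x = max (w x) (β x - b0 x)) ∧
      (∀ x, x ∉ S → w' x = w x)

/-! ### Polar part -/

/-- polar angle modulo π -/
noncomputable def th (p : E2) : ℝ := Real.arctan (p 1 / p 0)
/-- logarithmic radius with a minus sign -/
noncomputable def tt (p : E2) : ℝ := -Real.log ‖p‖

/-- a function of two variables together with its first and second derivatives -/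
structure Jet (S : Set (ℝ × ℝ)) (b bx bt bxx bxt btt : ℝ → ℝ → ℝ) : Prop where
  d0 : ∀ p ∈ S, HasFDerivAt (fun q : ℝ × ℝ => b q.1 q.2)
    (bx p.1 p.2 • ContinuousLinearMap.fst ℝ ℝ ℝ + bt p.1 p.2 • ContinuousLinearMap.snd ℝ ℝ ℝ) p
  d1 : ∀ p ∈ S, HasFDerivAt (fun q : ℝ × ℝ => bx q.1 q.2)
    (bxx p.1 p.2 • ContinuousLinearMap.fst ℝ ℝ ℝ + bxt p.1 p.2 • ContinuousLinearMap.snd ℝ ℝ ℝ) p
  d2 : ∀ p ∈ S, HasFDerivAt (fun q : ℝ × ℝ => bt q.1 q.2)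
    (bxt p.1 p.2 • ContinuousLinearMap.fst ℝ ℝ ℝ + btt p.1 p.2 • ContinuousLinearMap.snd ℝ ℝ ℝ) p
  c0 : ContinuousOn (fun q : ℝ × ℝ => bxx q.1 q.2) S
  c1 : ContinuousOn (fun q : ℝ × ℝ => bxt q.1 q.2) S
  c2 : ContinuousOn (fun q : ℝ × ℝ => btt q.1 q.2) S

/-- the operator in logarithmic polar coordinates -/
def Lpol (bx bt bxx bxt btt : ℝ) : ℝ :=
  (bx ^ 2 + bt ^ 2) * (bxx + btt) + 2 * (bx ^ 2 * bxx + 2 * bx * bt * bxt + bt ^ 2 * btt) +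
    2 * (bx ^ 2 + bt ^ 2) * bt + 3 * (bx ^ 2 + bt ^ 2) ^ 2

def stmtPolar : Prop :=
  ∀ (S : Set (ℝ × ℝ)), IsOpen S → ∀ (b bx bt bxx bxt btt : ℝ → ℝ → ℝ),
    Jet S b bx bt bxx bxt btt →
    IsOpen {p : E2 | p 0 ≠ 0 ∧ (th p, tt p) ∈ S} ∧
    ContDiffOn ℝ 1 (fun p => b (th p) (tt p)) {p : E2 | p 0 ≠ 0 ∧ (th p, tt p) ∈ S} ∧
    ContDiffOn ℝ 1 (flux (fun p => b (th p) (tt p))) {p : E2 | p 0 ≠ 0 ∧ (th p, tt p) ∈ S} ∧
    ∀ p : E2, p 0 ≠ 0 → (th p, tt p) ∈ S →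
      ‖gradient (fun p => b (th p) (tt p)) p‖ ^ 2 =
        (bx (th p) (tt p) ^ 2 + bt (th p) (tt p) ^ 2) / ‖p‖ ^ 2 ∧
      LL (fun p => b (th p) (tt p)) p =
        Lpol (bx (th p) (tt p)) (bt (th p) (tt p)) (bxx (th p) (tt p)) (bxt (th p) (tt p))
          (btt (th p) (tt p)) / ‖p‖ ^ 4

/-! ### The explicit functions -/

noncomputable def sg (z : ℝ) : ℝ := max 0 (Real.sin z + 1 / 2)
noncomputable def hh (z : ℝ) : ℝ := sg z ^ 2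
noncomputable def hh' (z : ℝ) : ℝ := 2 * sg z * Real.cos z
noncomputable def Ci : ℝ :=
  (∫ y in (0 : ℝ)..(2 * Real.pi), Real.exp (4 * y) * hh y) / (Real.exp (8 * Real.pi) - 1)
noncomputable def Ph (z : ℝ) : ℝ :=
  Real.exp (-(4 * z)) * (Ci + ∫ y in (0 : ℝ)..z, Real.exp (4 * y) * hh y)
noncomputable def ph (z : ℝ) : ℝ := hh z - 4 * Ph z
noncomputable def ph' (z : ℝ) : ℝ := hh' z - 4 * ph z
noncomputable def nn (z : ℝ) : ℝ := Real.exp (-(32 * Real.cos z))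
noncomputable def nn' (z : ℝ) : ℝ := 32 * Real.sin z * nn z

/-- basic facts on the profile functions -/
structure ProfFacts : Prop where
  dh : ∀ z, HasDerivAt hh (hh' z) z
  ch' : Continuous hh'
  dPh : ∀ z, HasDerivAt Ph (ph z) z
  dph : ∀ z, HasDerivAt ph (ph' z) z
  cph' : Continuous ph'
  dn : ∀ z, HasDerivAt nn (nn' z) z
  cn' : Continuous nn'
  perPh : ∀ z, Ph (z + 2 * Real.pi) = Ph z
  posPh : ∀ z, 0 < Ph z
  /-- uniform bounds -/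
  bdd : ∃ Λ : ℝ, 1 ≤ Λ ∧ ∀ z, |hh z| ≤ Λ ∧ |hh' z| ≤ Λ ∧ |Ph z| ≤ Λ ∧ |ph z| ≤ Λ ∧ |ph' z| ≤ Λ ∧
    |nn z| ≤ Λ ∧ |nn' z| ≤ Λ ∧ Λ⁻¹ ≤ nn z ∧ Λ⁻¹ ≤ hh z ^ 2 + ph z ^ 2

def stmtProf : Prop := ProfFacts

/-- the key inequality for the profile of the barrier -/
def stmtPsi : Prop :=
  ∀ C3 : ℝ, ∃ δ K : ℝ, 0 < δ ∧ 0 < K ∧ ∀ z,
    15 * nn z + nn' z + C3 * (|hh z| + |hh' z|) ≤ -δ + K * hh z ^ 2

/-- the barrier functions, l is the parameter λ -/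
noncomputable def Mh (l x z : ℝ) : ℝ :=
  3 * hh z ^ 2 + (l * x) ^ 2 * (ph z ^ 2 + 4 * hh z * ph z + hh z ^ 2) + 3 * (l * x) ^ 4 * ph z ^ 2
noncomputable def Mx (l x z : ℝ) : ℝ :=
  2 * (l * x) ^ 2 * (ph z ^ 2 + 4 * hh z * ph z + hh z ^ 2) + 12 * (l * x) ^ 4 * ph z ^ 2
noncomputable def Mxx (l x z : ℝ) : ℝ :=
  4 * (l * x) ^ 2 * (ph z ^ 2 + 4 * hh z * ph z + hh z ^ 2) + 48 * (l * x) ^ 4 * ph z ^ 2
noncomputable def Mz (l x z : ℝ) : ℝ :=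
  6 * hh z * hh' z + (l * x) ^ 2 * (2 * ph z * ph' z + 4 * hh' z * ph z + 4 * hh z * ph' z +
    2 * hh z * hh' z) + 6 * (l * x) ^ 4 * ph z * ph' z
noncomputable def Rr (l x z : ℝ) : ℝ := (l * x) ^ 2 * nn z / Mh l x z
noncomputable def R1 (l x z : ℝ) : ℝ := Rr l x z * (10 - Mx l x z / Mh l x z)
noncomputable def R2 (l x z : ℝ) : ℝ :=
  Rr l x z * ((10 - Mx l x z / Mh l x z) ^ 2 - (Mxx l x z / Mh l x z - (Mx l x z / Mh l x z) ^ 2))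
noncomputable def Rz (l x z : ℝ) : ℝ := ((l * x) ^ 2 * nn' z - Rr l x z * Mz l x z) / Mh l x z

noncomputable def zz (l x t : ℝ) : ℝ := Real.log x + l * t

noncomputable def s0 (l x t : ℝ) : ℝ := ∫ y in (0 : ℝ)..x, y ^ 7 * Rr l y (zz l y t)
noncomputable def m1 (l x t : ℝ) : ℝ := ∫ y in (0 : ℝ)..x, y ^ 7 * R1 l y (zz l y t)
noncomputable def m2 (l x t : ℝ) : ℝ := ∫ y in (0 : ℝ)..x, y ^ 7 * R2 l y (zz l y t)

noncomputable def sx (l x t : ℝ) : ℝ := x ^ 7 * Rr l x (zz l x t)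
noncomputable def st (l x t : ℝ) : ℝ := l * (x ^ 8 * Rr l x (zz l x t) - m1 l x t)
noncomputable def sxx (l x t : ℝ) : ℝ :=
  x ^ 6 * (R1 l x (zz l x t) - Rr l x (zz l x t) + Rz l x (zz l x t))
noncomputable def sxt (l x t : ℝ) : ℝ := l * x ^ 7 * Rz l x (zz l x t)
noncomputable def stt (l x t : ℝ) : ℝ :=
  l ^ 2 * (x ^ 8 * (Rz l x (zz l x t) - R1 l x (zz l x t)) + m2 l x t)

/-- inner function a without cutoff -/
noncomputable def a0 (l x t : ℝ) : ℝ := x ^ 4 * Ph (zz l x t)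
noncomputable def ax (l x t : ℝ) : ℝ := x ^ 3 * hh (zz l x t)
noncomputable def at' (l x t : ℝ) : ℝ := l * x ^ 4 * ph (zz l x t)
noncomputable def axx (l x t : ℝ) : ℝ := x ^ 2 * (3 * hh (zz l x t) + hh' (zz l x t))
noncomputable def axt (l x t : ℝ) : ℝ := l * x ^ 3 * hh' (zz l x t)
noncomputable def att (l x t : ℝ) : ℝ := l ^ 2 * x ^ 4 * ph' (zz l x t)

/-- a0 is C^2 on the whole plane -/
def stmtJetA : Prop := ∀ l : ℝ, 0 < l → l ≤ 1 →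
  Jet Set.univ (a0 l) (ax l) (at' l) (axx l) (axt l) (att l)

/-- algebraic bounds for the functions R; the constant does not depend on l -/
def stmtR : Prop := ∃ C : ℝ, 1 ≤ C ∧ ∀ l : ℝ, 0 < l → l ≤ 1 → ∀ x z : ℝ, x ≠ 0 → |x| ≤ 1 / 3 →
  0 < Mh l x z ∧ 0 < Rr l x z ∧ Rr l x z ≤ C ∧ 7 * Rr l x z ≤ R1 l x z ∧
  R1 l x z ≤ 28 * Rr l x z ∧ |R2 l x z| ≤ 1200 * Rr l x z ∧
  |hh z| * Rr l x z ≤ C * (l * |x|) ∧ l * |x| * |Rz l x z| ≤ C ∧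
  (hh z = 0 → C⁻¹ ≤ Rr l x z)

/-- derivatives of x^7 R and x^7 R1 away from x = 0 -/
def stmtRd : Prop := ∀ l : ℝ, 0 < l → l ≤ 1 →
  (∀ x z : ℝ, x ≠ 0 → |x| < 1 / 3 →
    HasFDerivAt (fun q : ℝ × ℝ => q.1 ^ 7 * Rr l q.1 q.2)
      ((x ^ 6 * (R1 l x z - Rr l x z)) • ContinuousLinearMap.fst ℝ ℝ ℝ +
        (x ^ 7 * Rz l x z) • ContinuousLinearMap.snd ℝ ℝ ℝ) (x, z)) ∧
  ContinuousOn (fun q : ℝ × ℝ => Rr l q.1 q.2) {q | q.1 ≠ 0 ∧ |q.1| < 1 / 3} ∧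
  ContinuousOn (fun q : ℝ × ℝ => R1 l q.1 q.2) {q | q.1 ≠ 0 ∧ |q.1| < 1 / 3} ∧
  ContinuousOn (fun q : ℝ × ℝ => R2 l q.1 q.2) {q | q.1 ≠ 0 ∧ |q.1| < 1 / 3} ∧
  ContinuousOn (fun q : ℝ × ℝ => Rz l q.1 q.2) {q | q.1 ≠ 0 ∧ |q.1| < 1 / 3} ∧
  ∃ R1z : ℝ → ℝ → ℝ,
    ContinuousOn (fun q : ℝ × ℝ => R1z q.1 q.2) {q | q.1 ≠ 0 ∧ |q.1| < 1 / 3} ∧
    (∃ C : ℝ, ∀ x z : ℝ, x ≠ 0 → |x| < 1 / 3 → |x| * |R1z x z| ≤ C) ∧
    ∀ x z : ℝ, x ≠ 0 → |x| < 1 / 3 →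
      HasFDerivAt (fun q : ℝ × ℝ => q.1 ^ 7 * R1 l q.1 q.2)
        ((x ^ 6 * (R2 l x z - R1 l x z)) • ContinuousLinearMap.fst ℝ ℝ ℝ +
          (x ^ 7 * R1z x z) • ContinuousLinearMap.snd ℝ ℝ ℝ) (x, z)

/-- differentiation of integrals along the log-periodic structure -/
def stmtG : Prop := ∀ (l ρ C : ℝ), 0 < l → 0 < ρ → ∀ (g g1 gz : ℝ → ℝ → ℝ),
  (∀ x z : ℝ, x ≠ 0 → |x| < ρ → HasFDerivAt (fun q : ℝ × ℝ => g q.1 q.2)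
    ((g1 x z / x) • ContinuousLinearMap.fst ℝ ℝ ℝ +
      gz x z • ContinuousLinearMap.snd ℝ ℝ ℝ) (x, z)) →
  ContinuousOn (fun q : ℝ × ℝ => g1 q.1 q.2) {q | q.1 ≠ 0 ∧ |q.1| < ρ} →
  ContinuousOn (fun q : ℝ × ℝ => gz q.1 q.2) {q | q.1 ≠ 0 ∧ |q.1| < ρ} →
  (∀ x z : ℝ, |x| < ρ → |g x z| ≤ C * x ^ 2 ∧ |g1 x z| ≤ C * x ^ 2 ∧ |gz x z| ≤ C * x ^ 2) →
  ∀ x t : ℝ, |x| < ρ →
    HasFDerivAt (fun q : ℝ × ℝ => ∫ y in (0 : ℝ)..q.1, g y (zz l y q.2))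
      (g x (zz l x t) • ContinuousLinearMap.fst ℝ ℝ ℝ +
        (l * (x * g x (zz l x t) -
          ∫ y in (0 : ℝ)..x, (g y (zz l y t) + g1 y (zz l y t)))) •
          ContinuousLinearMap.snd ℝ ℝ ℝ) (x, t)

/-- the barrier function is C^2 on a strip -/
def stmtJetS : Prop := ∀ l : ℝ, 0 < l → l ≤ 1 →
  Jet {p | |p.1| < 1 / 3} (s0 l) (sx l) (st l) (sxx l) (sxt l) (stt l)

/-- bounds for the barrier function and the auxiliary integrals; the constants do not depend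
on the parameter -/
def stmtBoundS : Prop := ∃ c C : ℝ, 0 < c ∧ 0 < C ∧ ∀ l : ℝ, 0 < l → l ≤ 1 →
  ∀ x t : ℝ, 0 < x → x < 1 / 3 →
    c * x ^ 8 ≤ s0 l x t ∧ s0 l x t ≤ C * x ^ 8 ∧ c * x ^ 8 ≤ m1 l x t ∧ m1 l x t ≤ C * x ^ 8 ∧
    |m2 l x t| ≤ C * x ^ 8

/-- symmetry in x -/
def stmtEvenS : Prop := ∀ l x t : ℝ, s0 l (-x) t = s0 l x t ∧ m1 l (-x) t = m1 l x t ∧
  m2 l (-x) t = m2 l x t

/-- the barrier inequality -/
def stmtBarrier : Prop := ∃ l : ℝ, 0 < l ∧ l ≤ 1 ∧ ∃ x0 : ℝ, 0 < x0 ∧ x0 ≤ 1 / 3 ∧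
  ∀ x t : ℝ, |x| < x0 →
    Lpol (ax l x t + sx l x t) (at' l x t + st l x t) (axx l x t + sxx l x t)
      (axt l x t + sxt l x t) (att l x t + stt l x t) ≤
      Lpol (ax l x t) (at' l x t) (axx l x t) (axt l x t) (att l x t) ∧
    Lpol (ax l x t) (at' l x t) (axx l x t) (axt l x t) (att l x t) ≤
    Lpol (ax l x t - sx l x t) (at' l x t - st l x t) (axx l x t - sxx l x t)
      (axt l x t - sxt l x t) (att l x t - stt l x t)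

/-! ### the global solution u = exp (aa l) -/

noncomputable def ch (x : ℝ) : ℝ := Real.smoothTransition (2 - 3 * x ^ 2)
noncomputable def A0 (l x t : ℝ) : ℝ := ch x * a0 l x t
noncomputable def Ax (l x t : ℝ) : ℝ := deriv ch x * a0 l x t + ch x * ax l x t
noncomputable def At (l x t : ℝ) : ℝ := ch x * at' l x t
noncomputable def Axx (l x t : ℝ) : ℝ :=
  deriv (deriv ch) x * a0 l x t + 2 * deriv ch x * ax l x t + ch x * axx l x t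
noncomputable def Axt (l x t : ℝ) : ℝ := deriv ch x * at' l x t + ch x * axt l x t
noncomputable def Att (l x t : ℝ) : ℝ := ch x * att l x t

/-- logarithm of the explicit solution -/
noncomputable def aa (l : ℝ) (p : E2) : ℝ := A0 l (th p) (tt p)

/-- the potential -/
noncomputable def VV (l : ℝ) (p : E2) : ℝ :=
  Lpol (Ax l (th p) (tt p)) (At l (th p) (tt p)) (Axx l (th p) (tt p)) (Axt l (th p) (tt p))
    (Att l (th p) (tt p)) / ‖p‖ ^ 4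

/-- facts on the cutoff version: it is C^2, agrees with a0 for |x| ≤ 1/3, vanishes for
|x| ≥ 1, and everything is bounded -/
def stmtJetAA : Prop := ∀ l : ℝ, 0 < l → l ≤ 1 →
  Jet Set.univ (A0 l) (Ax l) (At l) (Axx l) (Axt l) (Att l) ∧
  (∀ x t : ℝ, |x| ≤ 1 / 3 → A0 l x t = a0 l x t ∧ Ax l x t = ax l x t ∧ At l x t = at' l x t ∧
    Axx l x t = axx l x t ∧ Axt l x t = axt l x t ∧ Att l x t = att l x t) ∧
  (∀ x t : ℝ, 1 ≤ |x| → A0 l x t = 0 ∧ Ax l x t = 0 ∧ At l x t = 0 ∧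
    Axx l x t = 0 ∧ Axt l x t = 0 ∧ Att l x t = 0) ∧
  (∀ t : ℝ, A0 l 0 t = 0 ∧ Ax l 0 t = 0 ∧ At l 0 t = 0 ∧
    Axx l 0 t = 0 ∧ Axt l 0 t = 0 ∧ Att l 0 t = 0) ∧
  ∃ C : ℝ, 0 < C ∧ ∀ x t : ℝ, |A0 l x t| ≤ C ∧ |Ax l x t| ≤ C ∧ |At l x t| ≤ C ∧
    |Axx l x t| ≤ C ∧ |Axt l x t| ≤ C ∧ |Att l x t| ≤ C

def stmtU : Prop := ∀ l : ℝ, 0 < l → l ≤ 1 →
  ContDiffOn ℝ 1 (aa l) {0}ᶜ ∧ ContDiffOn ℝ 1 (flux (aa l)) {0}ᶜ ∧
  (∀ p : E2, p ≠ 0 → LL (aa l) p = VV l p) ∧ Measurable (VV l) ∧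
  ∃ C : ℝ, 0 < C ∧ ∀ p : E2, p ≠ 0 →
    |aa l p| ≤ C ∧ ‖gradient (aa l) p‖ ≤ C / ‖p‖ ∧ |VV l p| ≤ C / ‖p‖ ^ 4

/-- exp of a function with LL a = V is a weak solution -/
def stmtSolU : Prop := ∀ (S : Set E2), IsOpen S → ∀ (a V : E2 → ℝ),
  ContDiffOn ℝ 1 a S → ContDiffOn ℝ 1 (flux a) S → (∀ x ∈ S, LL a x = V x) →
  ∀ φ : E2 → ℝ, ContDiff ℝ (⊤ : ℕ∞) φ → HasCompactSupport φ → tsupport φ ⊆ S →
    ((∫ x, Real.exp (a x) • gradient φ x) = -∫ x, φ x • (Real.exp (a x) • gradient a x)) ∧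
    (∫ x, (‖Real.exp (a x) • gradient a x‖ ^ 2 *
      inner ℝ (Real.exp (a x) • gradient a x) (gradient φ x) +
      V x * Real.exp (a x) ^ 3 * φ x)) = 0

/-- the angular transition function -/
noncomputable def om (p : E2) : ℝ := Real.smoothTransition (2 * p 0 / ‖p‖)

def stmtOm : Prop := ContDiffOn ℝ 1 om {0}ᶜ ∧ (∀ p, 0 ≤ om p ∧ om p ≤ 1) ∧
  (∀ p : E2, 0 < p 0 → |th p| ≤ 1 / 3 → om p = 1) ∧ (∀ p : E2, p 0 ≤ 0 → om p = 0) ∧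
  ∃ C : ℝ, 0 < C ∧ ∀ p : E2, p ≠ 0 → ‖gradient om p‖ ≤ C / ‖p‖

end Pool.Agent.Helper82.PL
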