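import Pool.Agent.Helper82.PL.Defs

set_option autoImplicit false

open MeasureTheory Set Filter Topology

namespace Pool.Agent.Helper82.PL

/-- linear part of Lpol -/
def Lin (ax at_ axx axt att sx st sxx sxt stt : ℝ) : ℝ :=
  2 * (ax * sx + at_ * st) * (axx + att) + (ax ^ 2 + at_ ^ 2) * (sxx + stt) +
    2 * (2 * ax * sx * axx + ax ^ 2 * sxx + 2 * (sx * at_ * axt + ax * st * axt + ax * at_ * sxt) +
      2 * at_ * st * att + at_ ^ 2 * stt) + 4 * (ax * sx + at_ * st) * at_ +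
    2 * (ax ^ 2 + at_ ^ 2) * st + 12 * (ax ^ 2 + at_ ^ 2) * (ax * sx + at_ * st)

/-- the normalized linear part -/
def Ee (l x h h' f f' n n' R R1 μ1 μ2 : ℝ) : ℝ :=
  l ^ 2 * (15 * n + n') -
  l ^ 2 * (7 * (h ^ 2 + 2 * h * f + 3 * (l * x) ^ 2 * f ^ 2) + 6 * (l * x) ^ 2 * f ^ 2 +
    (2 * h * h' + 2 * h' * f + 2 * h * f' + 6 * (l * x) ^ 2 * f * f')) * μ1 -
  l ^ 2 * (h ^ 2 + 2 * h * f + 3 * (l * x) ^ 2 * f ^ 2) * R1 +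
  (2 - l) * l * ((h ^ 2 + 2 * h * f + 3 * (l * x) ^ 2 * f ^ 2) * R -
    (h ^ 2 + 3 * (l * x) ^ 2 * f ^ 2) * μ1) -
  l ^ 2 * ((7 * (h ^ 2 + 2 * h * f + 3 * (l * x) ^ 2 * f ^ 2) + 6 * (l * x) ^ 2 * f ^ 2) * R +
    (h ^ 2 + 2 * h * f + 3 * (l * x) ^ 2 * f ^ 2) * (R1 - R)) +
  l ^ 2 * (6 * (h ^ 2 + 3 * (l * x) ^ 2 * f ^ 2) + 6 * (l * x) ^ 2 * f ^ 2) * μ1 +
  l ^ 2 * (h ^ 2 + 3 * (l * x) ^ 2 * f ^ 2) * μ2 +
  12 * x ^ 2 * (h ^ 2 + (l * x) ^ 2 * f ^ 2) * (h * R + (l * x) ^ 2 * f * (R - μ1))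

lemma lin_id (l x h h' f n n' M Mx_ Mz_ R R1_ Rz_ μ1 μ2 : ℝ)
    (hM : M = 3 * h ^ 2 + (l * x) ^ 2 * (f ^ 2 + 4 * h * f + h ^ 2) + 3 * (l * x) ^ 4 * f ^ 2)
    (hMx : Mx_ = 2 * (l * x) ^ 2 * (f ^ 2 + 4 * h * f + h ^ 2) + 12 * (l * x) ^ 4 * f ^ 2)
    (hMz : Mz_ = 6 * h * h' + (l * x) ^ 2 * (2 * f * (h' - 4 * f) + 4 * h' * f +
      4 * h * (h' - 4 * f) + 2 * h * h') + 6 * (l * x) ^ 4 * f * (h' - 4 * f))
    (c1 : M * R = (l * x) ^ 2 * n) (c2 : M * R1_ + Mx_ * R = 10 * ((l * x) ^ 2 * n))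
    (c3 : M * Rz_ + Mz_ * R = (l * x) ^ 2 * n') :
    Lin (x ^ 3 * h) (l * x ^ 4 * f) (x ^ 2 * (3 * h + h')) (l * x ^ 3 * h')
      (l ^ 2 * x ^ 4 * (h' - 4 * f)) (x ^ 7 * R) (l * (x ^ 8 * R - x ^ 8 * μ1))
      (x ^ 6 * (R1_ - R + Rz_)) (l * x ^ 7 * Rz_) (l ^ 2 * (x ^ 8 * (Rz_ - R1_) + x ^ 8 * μ2)) =
    x ^ 14 * Ee l x h h' f (h' - 4 * f) n n' R R1_ μ1 μ2 := by
  subst hM hMx hMz
  unfold Lin Ee
  linear_combination (x ^ 12) * (5 * c1 + c2 + c3)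

/-- polynomial of the nonlinear remainder -/
def Pr (v : Fin 11 → ℝ) : ℝ :=
  let x := v 0
  let a1 := v 1
  let a2 := v 2
  let a3 := v 3
  let a4 := v 4
  let a5 := v 5
  let s1 := v 6
  let s2 := v 7
  let s3 := v 8
  let s4 := v 9
  let s5 := v 10
  x * (s1 ^ 2 + s2 ^ 2) * (a3 + a5) + 2 * (a1 * s1 + a2 * s2) * (s3 + s5) +
    x ^ 4 * (s1 ^ 2 + s2 ^ 2) * (s3 + s5) +
    2 * (x * (s1 ^ 2 * a3 + 2 * s1 * s2 * a4 + s2 ^ 2 * a5) +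
      2 * (a1 * s1 * s3 + (a1 * s2 + a2 * s1) * s4 + a2 * s2 * s5) +
      x ^ 4 * (s1 ^ 2 * s3 + 2 * s1 * s2 * s4 + s2 ^ 2 * s5)) +
    2 * (x ^ 2 * (s1 ^ 2 + s2 ^ 2) * a2 + 2 * x ^ 2 * (a1 * s1 + a2 * s2) * s2 +
      x ^ 6 * (s1 ^ 2 + s2 ^ 2) * s2) +
    3 * (x ^ 13 * (s1 ^ 2 + s2 ^ 2) ^ 2 + 4 * x ^ 5 * (a1 * s1 + a2 * s2) ^ 2 +
      2 * x ^ 5 * (a1 ^ 2 + a2 ^ 2) * (s1 ^ 2 + s2 ^ 2) +
      4 * x ^ 9 * (a1 * s1 + a2 * s2) * (s1 ^ 2 + s2 ^ 2))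

lemma Pr_cont : Continuous Pr := by
  unfold Pr
  fun_prop

lemma bdd_of_cont {n : ℕ} (f : (Fin n → ℝ) → ℝ) (hf : Continuous f) (K : ℝ) :
    ∃ B : ℝ, 0 < B ∧ ∀ v : Fin n → ℝ, (∀ i, |v i| ≤ K) → |f v| ≤ B := by
  have hc : IsCompact (Set.pi univ (fun _ : Fin n => Icc (-K) K)) :=
    isCompact_univ_pi (fun _ => isCompact_Icc)
  obtain ⟨B, hB⟩ := hc.exists_bound_of_continuousOn hf.continuousOn
  refine ⟨|B| + 1, by positivity, fun v hv => ?_⟩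
  have := hB v (fun i _ => abs_le.1 (hv i))
  rw [Real.norm_eq_abs] at this
  have h2 := le_abs_self B
  linarith

lemma rem_id (x a1 a2 a3 a4 a5 s1 s2 s3 s4 s5 : ℝ) :
    Lpol (x ^ 3 * a1 + x ^ 7 * s1) (x ^ 3 * a2 + x ^ 7 * s2) (x ^ 2 * a3 + x ^ 5 * s3)
      (x ^ 2 * a4 + x ^ 5 * s4) (x ^ 2 * a5 + x ^ 5 * s5) =
    Lpol (x ^ 3 * a1) (x ^ 3 * a2) (x ^ 2 * a3) (x ^ 2 * a4) (x ^ 2 * a5) +
    Lin (x ^ 3 * a1) (x ^ 3 * a2) (x ^ 2 * a3) (x ^ 2 * a4) (x ^ 2 * a5)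
      (x ^ 7 * s1) (x ^ 7 * s2) (x ^ 5 * s3) (x ^ 5 * s4) (x ^ 5 * s5) +
    x ^ 15 * Pr ![x, a1, a2, a3, a4, a5, s1, s2, s3, s4, s5] := by
  have e : Pr ![x, a1, a2, a3, a4, a5, s1, s2, s3, s4, s5] =
    x * (s1 ^ 2 + s2 ^ 2) * (a3 + a5) + 2 * (a1 * s1 + a2 * s2) * (s3 + s5) +
    x ^ 4 * (s1 ^ 2 + s2 ^ 2) * (s3 + s5) +
    2 * (x * (s1 ^ 2 * a3 + 2 * s1 * s2 * a4 + s2 ^ 2 * a5) +
      2 * (a1 * s1 * s3 + (a1 * s2 + a2 * s1) * s4 + a2 * s2 * s5) +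
      x ^ 4 * (s1 ^ 2 * s3 + 2 * s1 * s2 * s4 + s2 ^ 2 * s5)) +
    2 * (x ^ 2 * (s1 ^ 2 + s2 ^ 2) * a2 + 2 * x ^ 2 * (a1 * s1 + a2 * s2) * s2 +
      x ^ 6 * (s1 ^ 2 + s2 ^ 2) * s2) +
    3 * (x ^ 13 * (s1 ^ 2 + s2 ^ 2) ^ 2 + 4 * x ^ 5 * (a1 * s1 + a2 * s2) ^ 2 +
      2 * x ^ 5 * (a1 ^ 2 + a2 ^ 2) * (s1 ^ 2 + s2 ^ 2) +
      4 * x ^ 9 * (a1 * s1 + a2 * s2) * (s1 ^ 2 + s2 ^ 2)) := rfl
  rw [e]
  unfold Lpol Lin
  ring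

/-- polynomial of the small part of the linear part; variables
x l h h' f ρ κ R μ1 μ2 -/
def P2 (v : Fin 10 → ℝ) : ℝ :=
  let x := v 0
  let l := v 1
  let h := v 2
  let h' := v 3
  let f := v 4
  let ρ := v 5
  let κ := v 6
  let R := v 7
  let μ1 := v 8
  (0 : ℝ) - l ^ 2 * (27 * (l ^ 2 * x) * f ^ 2 + 6 * (l ^ 2 * x) * f * (h' - 4 * f)) * μ1 -
  l ^ 2 * (κ * (l * (h + 2 * f) * ρ + 3 * (l ^ 2 * x) * f ^ 2 * R)) +
  (2 - l) * l * (l * (h + 2 * f) * ρ + 3 * (l ^ 2 * x) * f ^ 2 * R) -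
  l ^ 2 * (6 * (l * (h + 2 * f) * ρ + 3 * (l ^ 2 * x) * f ^ 2 * R) + 6 * (l ^ 2 * x) * f ^ 2 * R +
    κ * (l * (h + 2 * f) * ρ + 3 * (l ^ 2 * x) * f ^ 2 * R)) +
  l ^ 2 * (6 * (l ^ 2 * x) * f ^ 2) * μ1 +
  12 * x * (h ^ 2 + (l * x) ^ 2 * f ^ 2) * (h * R + (l * x) ^ 2 * f * (R - μ1))

lemma P2_cont : Continuous P2 := by
  unfold P2
  fun_prop

lemma Ee_id (l x h h' f n n' R ρ κ μ1 μ2 : ℝ) (hρ : h * R = l * x * ρ) :
    Ee l x h h' f (h' - 4 * f) n n' R (κ * R) μ1 μ2 =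
    l ^ 2 * (15 * n + n') -
    l ^ 2 * (7 * h ^ 2 + 6 * h * f + 4 * h * h' + 2 * h' * f) * μ1 -
    l * (h ^ 2 + 3 * (l * x) ^ 2 * f ^ 2) * ((2 - l) * μ1 - l * (6 * μ1 + μ2)) +
    x * P2 ![x, l, h, h', f, ρ, κ, R, μ1, μ2] := by
  have e : P2 ![x, l, h, h', f, ρ, κ, R, μ1, μ2] =
    (0 : ℝ) - l ^ 2 * (27 * (l ^ 2 * x) * f ^ 2 + 6 * (l ^ 2 * x) * f * (h' - 4 * f)) * μ1 -
    l ^ 2 * (κ * (l * (h + 2 * f) * ρ + 3 * (l ^ 2 * x) * f ^ 2 * R)) +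
    (2 - l) * l * (l * (h + 2 * f) * ρ + 3 * (l ^ 2 * x) * f ^ 2 * R) -
    l ^ 2 * (6 * (l * (h + 2 * f) * ρ + 3 * (l ^ 2 * x) * f ^ 2 * R) +
      6 * (l ^ 2 * x) * f ^ 2 * R +
      κ * (l * (h + 2 * f) * ρ + 3 * (l ^ 2 * x) * f ^ 2 * R)) +
    l ^ 2 * (6 * (l ^ 2 * x) * f ^ 2) * μ1 +
    12 * x * (h ^ 2 + (l * x) ^ 2 * f ^ 2) * (h * R + (l * x) ^ 2 * f * (R - μ1)) := rfl
  rw [e]
  unfold Ee
  have hρ' : l * x * ρ = h * R := hρ.symm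
  linear_combination (l ^ 2 * κ * (h + 2 * f) - (2 - l) * l * (h + 2 * f) +
    l ^ 2 * (6 * (h + 2 * f) + κ * (h + 2 * f))) * hρ'

lemma Lin_neg (ax at_ axx axt att sx st sxx sxt stt : ℝ) :
    Lin ax at_ axx axt att (-sx) (-st) (-sxx) (-sxt) (-stt) =
      -Lin ax at_ axx axt att sx st sxx sxt stt := by
  unfold Lin; ring

lemma main_bound (l x h h' f n n' μ1 μ2 Λ CB c δ K : ℝ) (hl : 0 < l)
    (hΛ : 1 ≤ Λ) (hh1 : |h| ≤ Λ) (hh2 : |h'| ≤ Λ) (hf : |f| ≤ Λ) (hc : 0 < c)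
    (hμ1 : c ≤ μ1) (hμ1' : μ1 ≤ CB) (hμ2 : |μ2| ≤ CB) (hl8 : 8 * CB * l ≤ c) (hlK : l * K ≤ c)
    (hPs : 15 * n + n' + 17 * Λ * CB * (|h| + |h'|) ≤ -δ + K * h ^ 2) :
    l ^ 2 * (15 * n + n') -
    l ^ 2 * (7 * h ^ 2 + 6 * h * f + 4 * h * h' + 2 * h' * f) * μ1 -
    l * (h ^ 2 + 3 * (l * x) ^ 2 * f ^ 2) * ((2 - l) * μ1 - l * (6 * μ1 + μ2)) ≤
    -(l ^ 2 * δ) := by
  have hμ0 : 0 ≤ μ1 := by linarith
  have hCB : 0 ≤ CB := by linarith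
  have a0 : 0 ≤ |h| := abs_nonneg h
  have a1 : 0 ≤ |h'| := abs_nonneg h'
  have a2 : 0 ≤ |f| := abs_nonneg f
  have hb : |7 * h ^ 2 + 6 * h * f + 4 * h * h' + 2 * h' * f| ≤ 17 * Λ * (|h| + |h'|) := by
    have t1 : |7 * h ^ 2| ≤ 7 * Λ * |h| := by
      rw [abs_mul, abs_of_pos (by norm_num : (0:ℝ) < 7), abs_pow]
      nlinarith
    have t2 : |6 * h * f| ≤ 6 * Λ * |h| := by
      rw [abs_mul, abs_mul, abs_of_pos (by norm_num : (0:ℝ) < 6)]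
      nlinarith
    have t3 : |4 * h * h'| ≤ 4 * Λ * |h| := by
      rw [abs_mul, abs_mul, abs_of_pos (by norm_num : (0:ℝ) < 4)]
      nlinarith
    have t4 : |2 * h' * f| ≤ 2 * Λ * |h'| := by
      rw [abs_mul, abs_mul, abs_of_pos (by norm_num : (0:ℝ) < 2)]
      nlinarith
    have := abs_add_le (7 * h ^ 2 + 6 * h * f + 4 * h * h') (2 * h' * f)
    have := abs_add_le (7 * h ^ 2 + 6 * h * f) (4 * h * h')
    have := abs_add_le (7 * h ^ 2) (6 * h * f)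
    nlinarith [mul_nonneg (by linarith : (0:ℝ) ≤ Λ) a1]
  have hb2 : -((7 * h ^ 2 + 6 * h * f + 4 * h * h' + 2 * h' * f) * μ1) ≤
      17 * Λ * CB * (|h| + |h'|) := by
    have h1 := neg_le_abs (7 * h ^ 2 + 6 * h * f + 4 * h * h' + 2 * h' * f)
    calc -((7 * h ^ 2 + 6 * h * f + 4 * h * h' + 2 * h' * f) * μ1)
        = (-(7 * h ^ 2 + 6 * h * f + 4 * h * h' + 2 * h' * f)) * μ1 := by ring
      _ ≤ (17 * Λ * (|h| + |h'|)) * μ1 := by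
          apply mul_le_mul_of_nonneg_right (h1.trans hb) hμ0
      _ ≤ (17 * Λ * (|h| + |h'|)) * CB := by
          apply mul_le_mul_of_nonneg_left hμ1'
          have : 0 ≤ Λ := by linarith
          positivity
      _ = 17 * Λ * CB * (|h| + |h'|) := by ring
  have hc2 : c ≤ (2 - l) * μ1 - l * (6 * μ1 + μ2) := by
    have h2 := le_abs_self μ2
    have : l * μ2 ≤ l * CB := mul_le_mul_of_nonneg_left (h2.trans hμ2) hl.le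
    have : l * μ1 ≤ l * CB := mul_le_mul_of_nonneg_left hμ1' hl.le
    nlinarith
  have h3 : l * (h ^ 2) * c ≤
      l * (h ^ 2 + 3 * (l * x) ^ 2 * f ^ 2) * ((2 - l) * μ1 - l * (6 * μ1 + μ2)) := by
    have q1 : l * h ^ 2 ≤ l * (h ^ 2 + 3 * (l * x) ^ 2 * f ^ 2) := by
      apply mul_le_mul_of_nonneg_left _ hl.le
      have : 0 ≤ 3 * (l * x) ^ 2 * f ^ 2 := by positivity
      linarith
    apply mul_le_mul q1 hc2 hc.le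
    positivity
  have h4 : l ^ 2 * (15 * n + n') -
      l ^ 2 * (7 * h ^ 2 + 6 * h * f + 4 * h * h' + 2 * h' * f) * μ1 ≤
      l ^ 2 * (-δ + K * h ^ 2) := by
    have : l ^ 2 * (15 * n + n') -
      l ^ 2 * (7 * h ^ 2 + 6 * h * f + 4 * h * h' + 2 * h' * f) * μ1 =
      l ^ 2 * (15 * n + n' + -((7 * h ^ 2 + 6 * h * f + 4 * h * h' + 2 * h' * f) * μ1)) := by
      ring
    rw [this]
    apply mul_le_mul_of_nonneg_left _ (by positivity)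
    linarith
  have h5 : l ^ 2 * (K * h ^ 2) ≤ l * h ^ 2 * c := by
    have : l * h ^ 2 * (l * K) ≤ l * h ^ 2 * c := mul_le_mul_of_nonneg_left hlK (by positivity)
    calc l ^ 2 * (K * h ^ 2) = l * h ^ 2 * (l * K) := by ring
      _ ≤ _ := this
  linarith

lemma A_id (l x h h' f R R1_ Rz_ μ1 μ2 E q : ℝ) (hq : q = 1 ∨ q = -1)
    (hid : Lin (x ^ 3 * h) (l * x ^ 4 * f) (x ^ 2 * (3 * h + h')) (l * x ^ 3 * h')
      (l ^ 2 * x ^ 4 * (h' - 4 * f)) (x ^ 7 * R) (l * (x ^ 8 * R - x ^ 8 * μ1))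
      (x ^ 6 * (R1_ - R + Rz_)) (l * x ^ 7 * Rz_) (l ^ 2 * (x ^ 8 * (Rz_ - R1_) + x ^ 8 * μ2)) =
      x ^ 14 * E) :
    Lpol (x ^ 3 * h + q * (x ^ 7 * R)) (l * x ^ 4 * f + q * (l * (x ^ 8 * R - x ^ 8 * μ1)))
      (x ^ 2 * (3 * h + h') + q * (x ^ 6 * (R1_ - R + Rz_)))
      (l * x ^ 3 * h' + q * (l * x ^ 7 * Rz_))
      (l ^ 2 * x ^ 4 * (h' - 4 * f) + q * (l ^ 2 * (x ^ 8 * (Rz_ - R1_) + x ^ 8 * μ2))) =
      Lpol (x ^ 3 * h) (l * x ^ 4 * f) (x ^ 2 * (3 * h + h')) (l * x ^ 3 * h')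
      (l ^ 2 * x ^ 4 * (h' - 4 * f)) + q * (x ^ 14 * E) +
      x ^ 15 * Pr ![x, h, l * x * f, 3 * h + h', l * x * h', (l * x) ^ 2 * (h' - 4 * f),
        q * R, q * (l * x * (R - μ1)), q * (x * (R1_ - R + Rz_)), q * (l * x * (x * Rz_)),
        q * (l ^ 2 * (x ^ 2 * (x * Rz_) - x ^ 3 * R1_ + x ^ 3 * μ2))] := by
  have key := rem_id x h (l * x * f) (3 * h + h') (l * x * h') ((l * x) ^ 2 * (h' - 4 * f))
      (q * R) (q * (l * x * (R - μ1))) (q * (x * (R1_ - R + Rz_))) (q * (l * x * (x * Rz_)))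
      (q * (l ^ 2 * (x ^ 2 * (x * Rz_) - x ^ 3 * R1_ + x ^ 3 * μ2)))
  rw [← hid]
  have e1 : x ^ 3 * (l * x * f) = l * x ^ 4 * f := by ring
  have e2 : x ^ 2 * (l * x * h') = l * x ^ 3 * h' := by ring
  have e3 : x ^ 2 * ((l * x) ^ 2 * (h' - 4 * f)) = l ^ 2 * x ^ 4 * (h' - 4 * f) := by ring
  have e4 : x ^ 7 * (q * R) = q * (x ^ 7 * R) := by ring
  have e5 : x ^ 7 * (q * (l * x * (R - μ1))) = q * (l * (x ^ 8 * R - x ^ 8 * μ1)) := by ring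
  have e6 : x ^ 5 * (q * (x * (R1_ - R + Rz_))) = q * (x ^ 6 * (R1_ - R + Rz_)) := by ring
  have e7 : x ^ 5 * (q * (l * x * (x * Rz_))) = q * (l * x ^ 7 * Rz_) := by ring
  have e8 : x ^ 5 * (q * (l ^ 2 * (x ^ 2 * (x * Rz_) - x ^ 3 * R1_ + x ^ 3 * μ2))) =
    q * (l ^ 2 * (x ^ 8 * (Rz_ - R1_) + x ^ 8 * μ2)) := by ring
  rw [e1, e2, e3, e4, e5, e6, e7, e8] at key
  rw [key]
  have hL : Lin (x ^ 3 * h) (l * x ^ 4 * f) (x ^ 2 * (3 * h + h')) (l * x ^ 3 * h')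
      (l ^ 2 * x ^ 4 * (h' - 4 * f)) (q * (x ^ 7 * R)) (q * (l * (x ^ 8 * R - x ^ 8 * μ1)))
      (q * (x ^ 6 * (R1_ - R + Rz_))) (q * (l * x ^ 7 * Rz_))
      (q * (l ^ 2 * (x ^ 8 * (Rz_ - R1_) + x ^ 8 * μ2))) =
      q * Lin (x ^ 3 * h) (l * x ^ 4 * f) (x ^ 2 * (3 * h + h')) (l * x ^ 3 * h')
      (l ^ 2 * x ^ 4 * (h' - 4 * f)) (x ^ 7 * R) (l * (x ^ 8 * R - x ^ 8 * μ1))
      (x ^ 6 * (R1_ - R + Rz_)) (l * x ^ 7 * Rz_)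
      (l ^ 2 * (x ^ 8 * (Rz_ - R1_) + x ^ 8 * μ2)) := by
    unfold Lin; ring
  rw [hL]

lemma abs_small (q y B : ℝ) (hq : |q| ≤ 1) (hy : |y| ≤ B) : |q * y| ≤ B := by
  rw [abs_mul]
  have h1 : 0 ≤ |y| := abs_nonneg y
  calc |q| * |y| ≤ 1 * |y| := mul_le_mul_of_nonneg_right hq h1
    _ ≤ B := by linarith

lemma vec_bound (l x h h' f R R1_ Rz_ μ1 μ2 Λ CR CB B3 q : ℝ)
    (hq : |q| ≤ 1)
    (hl : 0 < l) (hl1 : l ≤ 1) (hx : 0 < x) (hx1 : x ≤ 1)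
    (hΛ : 1 ≤ Λ) (hh1 : |h| ≤ Λ) (hh2 : |h'| ≤ Λ) (hf : |f| ≤ Λ) (hCR : 1 ≤ CR) (hCB : 0 < CB)
    (b7 : |R| ≤ CR) (b71 : |R1_| ≤ 28 * CR) (hRz : l * x * |Rz_| ≤ CR)
    (b8 : |μ1| ≤ CB) (hμ2 : |μ2| ≤ CB)
    (hB3 : ∀ v : Fin 11 → ℝ, (∀ i, |v i| ≤ (5 * Λ + 30 * CR + CB) / l) → |Pr v| ≤ B3) :
    |Pr ![x, h, l * x * f, 3 * h + h', l * x * h', (l * x) ^ 2 * (h' - 4 * f),
        q * R, q * (l * x * (R - μ1)), q * (x * (R1_ - R + Rz_)), q * (l * x * (x * Rz_)),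
        q * (l ^ 2 * (x ^ 2 * (x * Rz_) - x ^ 3 * R1_ + x ^ 3 * μ2))]| ≤ B3 := by
  have hdiv : ∀ a : ℝ, 0 ≤ a → a ≤ a / l := by
    intro a ha
    rw [le_div_iff₀ hl]
    calc a * l ≤ a * 1 := mul_le_mul_of_nonneg_left hl1 ha
      _ = a := mul_one a
  have hmono : ∀ a : ℝ, a ≤ 5 * Λ + 30 * CR + CB → a / l ≤ (5 * Λ + 30 * CR + CB) / l :=
    fun a ha => div_le_div_of_nonneg_right ha hl.le
  have hKK : ∀ y B : ℝ, |y| ≤ B → B ≤ 5 * Λ + 30 * CR + CB →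
      |y| ≤ (5 * Λ + 30 * CR + CB) / l := by
    intro y B hy hB
    exact (hy.trans (hdiv B ((abs_nonneg y).trans hy))).trans (hmono B hB)
  have hxR : |x * Rz_| ≤ CR / l := by
    rw [abs_mul, abs_of_pos hx, le_div_iff₀ hl]
    calc x * |Rz_| * l = l * x * |Rz_| := by ring
      _ ≤ CR := hRz
  have ba : |x| ≤ 1 := by rw [abs_of_pos hx]; exact hx1
  have bl : |l| ≤ 1 := by rw [abs_of_pos hl]; exact hl1
  have blx : |l * x| ≤ 1 := abs_small l x 1 bl ba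
  have bpow : ∀ (y : ℝ) (n : ℕ), |y| ≤ 1 → |y ^ n| ≤ 1 := by
    intro y n hy
    rw [abs_pow]
    exact pow_le_one₀ (abs_nonneg _) hy
  have hf' : |h' - 4 * f| ≤ 5 * Λ := by
    have h1 := abs_sub h' (4 * f)
    rw [abs_mul, abs_of_pos (by norm_num : (0:ℝ) < 4)] at h1
    linarith
  have s3b : |x * (R1_ - R + Rz_)| ≤ (5 * Λ + 30 * CR + CB) / l := by
    have e1 : x * (R1_ - R + Rz_) = x * (R1_ - R) + x * Rz_ := by ring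
    have e2 : |x * (R1_ - R)| ≤ 29 * CR := by
      apply abs_small _ _ _ ba
      have := abs_sub R1_ R
      linarith
    have e3 : 29 * CR ≤ 29 * CR / l := hdiv _ (by linarith)
    calc |x * (R1_ - R + Rz_)| ≤ |x * (R1_ - R)| + |x * Rz_| := by
          rw [e1]; exact abs_add_le _ _
      _ ≤ 29 * CR / l + CR / l := by linarith
      _ = (30 * CR) / l := by ring
      _ ≤ _ := hmono _ (by linarith)
  have s4b : |l * x * (x * Rz_)| ≤ (5 * Λ + 30 * CR + CB) / l :=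
    (abs_small _ _ _ blx hxR).trans (hmono _ (by linarith))
  have s5b : |l ^ 2 * (x ^ 2 * (x * Rz_) - x ^ 3 * R1_ + x ^ 3 * μ2)| ≤
      (5 * Λ + 30 * CR + CB) / l := by
    apply abs_small _ _ _ (bpow l 2 bl)
    have e1 := abs_small _ _ _ (bpow x 2 ba) hxR
    have e2 := abs_small _ _ _ (bpow x 3 ba) b71
    have e3 := abs_small _ _ _ (bpow x 3 ba) hμ2
    have e4 := abs_add_le (x ^ 2 * (x * Rz_) - x ^ 3 * R1_) (x ^ 3 * μ2)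
    have e5 := abs_sub (x ^ 2 * (x * Rz_)) (x ^ 3 * R1_)
    have e6 : 28 * CR ≤ 28 * CR / l := hdiv _ (by linarith)
    have e7 : CB ≤ CB / l := hdiv _ hCB.le
    calc |x ^ 2 * (x * Rz_) - x ^ 3 * R1_ + x ^ 3 * μ2| ≤ CR / l + 28 * CR / l + CB / l := by
          linarith
      _ = (29 * CR + CB) / l := by ring
      _ ≤ _ := hmono _ (by linarith)
  have s2b : |l * x * (R - μ1)| ≤ CR + CB := by
    apply abs_small _ _ _ blx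
    have := abs_sub R μ1
    linarith
  have bq : |(l * x) ^ 2| ≤ 1 := bpow _ 2 blx
  have r3' : |3 * h + h'| ≤ 4 * Λ := by
    have h1 := abs_add_le (3 * h) h'
    rw [abs_mul, abs_of_pos (by norm_num : (0:ℝ) < 3)] at h1
    linarith
  apply hB3
  intro i
  fin_cases i
  · exact hKK x 1 ba (by linarith)
  · exact hKK h Λ hh1 (by linarith)
  · exact hKK (l * x * f) Λ (abs_small _ _ _ blx hf) (by linarith)
  · exact hKK (3 * h + h') (4 * Λ) r3' (by linarith)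
  · exact hKK (l * x * h') Λ (abs_small _ _ _ blx hh2) (by linarith)
  · exact hKK ((l * x) ^ 2 * (h' - 4 * f)) (5 * Λ) (abs_small _ _ _ bq hf') (by linarith)
  · exact hKK (q * R) CR (abs_small _ _ _ hq b7) (by linarith)
  · exact hKK (q * (l * x * (R - μ1))) (CR + CB) (abs_small _ _ _ hq s2b) (by linarith)
  · exact abs_small _ _ _ hq s3b
  · exact abs_small _ _ _ hq s4b
  · exact abs_small _ _ _ hq s5b

lemma vec10_bound (x l h h' f ρ κ R μ1 μ2 Λ CR CB B2 : ℝ)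
    (ba : |x| ≤ 1) (bl : |l| ≤ 1)
    (hΛ : 1 ≤ Λ) (hh1 : |h| ≤ Λ) (hh2 : |h'| ≤ Λ) (hf : |f| ≤ Λ) (hCR : 1 ≤ CR) (hCB : 0 < CB)
    (hρb : |ρ| ≤ CR) (hκb : |κ| ≤ 28) (b7 : |R| ≤ CR) (b8 : |μ1| ≤ CB) (hμ2 : |μ2| ≤ CB)
    (hB2 : ∀ v : Fin 10 → ℝ, (∀ i, |v i| ≤ Λ + CR + CB + 28) → |P2 v| ≤ B2) :
    |P2 ![x, l, h, h', f, ρ, κ, R, μ1, μ2]| ≤ B2 := by
  have hKK : ∀ y B : ℝ, |y| ≤ B → B ≤ Λ + CR + CB + 28 → |y| ≤ Λ + CR + CB + 28 :=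
    fun y B h1 h2 => h1.trans h2
  apply hB2
  intro i
  fin_cases i
  · exact hKK x 1 ba (by linarith)
  · exact hKK l 1 bl (by linarith)
  · exact hKK h Λ hh1 (by linarith)
  · exact hKK h' Λ hh2 (by linarith)
  · exact hKK f Λ hf (by linarith)
  · exact hKK ρ CR hρb (by linarith)
  · exact hKK κ 28 hκb (by linarith)
  · exact hKK R CR b7 (by linarith)
  · exact hKK μ1 CB b8 (by linarith)
  · exact hKK μ2 CB hμ2 (by linarith)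

lemma final_plus (x E PP B2 B3 d L0 L1 : ℝ) (hx : 0 < x) (hE : E ≤ -d + x * B2)
    (hP : |PP| ≤ B3) (hx0 : x * (B2 + B3) ≤ d)
    (h : L1 = L0 + 1 * (x ^ 14 * E) + x ^ 15 * PP) : L1 ≤ L0 := by
  have hle : x * PP ≤ x * B3 := mul_le_mul_of_nonneg_left (abs_le.1 hP).2 hx.le
  have : x ^ 14 * (E + x * PP) ≤ 0 :=
    mul_nonpos_of_nonneg_of_nonpos (by positivity) (by linarith)
  calc L1 = L0 + x ^ 14 * (E + x * PP) := by rw [h]; ring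
    _ ≤ L0 := by linarith

lemma final_minus (x E PP B2 B3 d L0 L1 : ℝ) (hx : 0 < x) (hE : E ≤ -d + x * B2)
    (hP : |PP| ≤ B3) (hx0 : x * (B2 + B3) ≤ d)
    (h : L1 = L0 + (-1) * (x ^ 14 * E) + x ^ 15 * PP) : L0 ≤ L1 := by
  have hle : x * (-B3) ≤ x * PP := mul_le_mul_of_nonneg_left (abs_le.1 hP).1 hx.le
  have : 0 ≤ x ^ 14 * (-E + x * PP) := mul_nonneg (by positivity) (by linarith)
  calc L0 ≤ L0 + x ^ 14 * (-E + x * PP) := by linarith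
    _ = L1 := by rw [h]; ring

/-- the inequality for one point with x > 0, all constants explicit -/
lemma pos_case (l x h h' f n n' M Mx_ Mz_ R R1_ Rz_ μ1 μ2 Λ CR CB c δ K B2 B3 : ℝ)
    (hl : 0 < l) (hl1 : l ≤ 1) (hx : 0 < x) (hx1 : x ≤ 1)
    (hΛ : 1 ≤ Λ) (hh1 : |h| ≤ Λ) (hh2 : |h'| ≤ Λ) (hf : |f| ≤ Λ)
    (hc : 0 < c) (hCR : 1 ≤ CR)
    (hM : M = 3 * h ^ 2 + (l * x) ^ 2 * (f ^ 2 + 4 * h * f + h ^ 2) + 3 * (l * x) ^ 4 * f ^ 2)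
    (hMx : Mx_ = 2 * (l * x) ^ 2 * (f ^ 2 + 4 * h * f + h ^ 2) + 12 * (l * x) ^ 4 * f ^ 2)
    (hMz : Mz_ = 6 * h * h' + (l * x) ^ 2 * (2 * f * (h' - 4 * f) + 4 * h' * f +
      4 * h * (h' - 4 * f) + 2 * h * h') + 6 * (l * x) ^ 4 * f * (h' - 4 * f))
    (hMpos : 0 < M)
    (hRdef : R = (l * x) ^ 2 * n / M) (hR1def : R1_ = R * (10 - Mx_ / M))
    (hRzdef : Rz_ = ((l * x) ^ 2 * n' - R * Mz_) / M)
    (hR0 : 0 < R) (hRC : R ≤ CR) (hR1a : 7 * R ≤ R1_) (hR1b : R1_ ≤ 28 * R)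
    (hhR : |h| * R ≤ CR * (l * x)) (hRz : l * x * |Rz_| ≤ CR)
    (hμ1 : c ≤ μ1) (hμ1' : μ1 ≤ CB) (hμ2 : |μ2| ≤ CB) (hl8 : 8 * CB * l ≤ c) (hlK : l * K ≤ c)
    (hPs : 15 * n + n' + 17 * Λ * CB * (|h| + |h'|) ≤ -δ + K * h ^ 2)
    (hB2 : ∀ v : Fin 10 → ℝ, (∀ i, |v i| ≤ Λ + CR + CB + 28) → |P2 v| ≤ B2)
    (hB3 : ∀ v : Fin 11 → ℝ, (∀ i, |v i| ≤ (5 * Λ + 30 * CR + CB) / l) → |Pr v| ≤ B3)
    (hx0 : x * (B2 + B3) ≤ l ^ 2 * δ) :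
    Lpol (x ^ 3 * h + 1 * (x ^ 7 * R)) (l * x ^ 4 * f + 1 * (l * (x ^ 8 * R - x ^ 8 * μ1)))
      (x ^ 2 * (3 * h + h') + 1 * (x ^ 6 * (R1_ - R + Rz_)))
      (l * x ^ 3 * h' + 1 * (l * x ^ 7 * Rz_))
      (l ^ 2 * x ^ 4 * (h' - 4 * f) + 1 * (l ^ 2 * (x ^ 8 * (Rz_ - R1_) + x ^ 8 * μ2))) ≤
    Lpol (x ^ 3 * h) (l * x ^ 4 * f) (x ^ 2 * (3 * h + h')) (l * x ^ 3 * h')
      (l ^ 2 * x ^ 4 * (h' - 4 * f)) ∧
    Lpol (x ^ 3 * h) (l * x ^ 4 * f) (x ^ 2 * (3 * h + h')) (l * x ^ 3 * h')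
      (l ^ 2 * x ^ 4 * (h' - 4 * f)) ≤
    Lpol (x ^ 3 * h + (-1) * (x ^ 7 * R))
      (l * x ^ 4 * f + (-1) * (l * (x ^ 8 * R - x ^ 8 * μ1)))
      (x ^ 2 * (3 * h + h') + (-1) * (x ^ 6 * (R1_ - R + Rz_)))
      (l * x ^ 3 * h' + (-1) * (l * x ^ 7 * Rz_))
      (l ^ 2 * x ^ 4 * (h' - 4 * f) +
        (-1) * (l ^ 2 * (x ^ 8 * (Rz_ - R1_) + x ^ 8 * μ2))) := by
  have hCB : 0 < CB := by linarith only [hc, hμ1, hμ1']
  have hlx : 0 < l * x := mul_pos hl hx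
  have c1 : M * R = (l * x) ^ 2 * n := by rw [hRdef]; field_simp
  have c2 : M * R1_ + Mx_ * R = 10 * ((l * x) ^ 2 * n) := by
    rw [← c1, hR1def]; field_simp; ring
  have c3 : M * Rz_ + Mz_ * R = (l * x) ^ 2 * n' := by
    rw [hRzdef]; field_simp; ring
  have hid := lin_id l x h h' f n n' M Mx_ Mz_ R R1_ Rz_ μ1 μ2 hM hMx hMz c1 c2 c3
  have b7 : |R| ≤ CR := by rw [abs_of_pos hR0]; exact hRC
  have b71 : |R1_| ≤ 28 * CR := by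
    rw [abs_of_nonneg (by linarith only [hR0, hR1a])]
    linarith only [hR1b, hRC]
  have b8 : |μ1| ≤ CB := by
    rw [abs_of_nonneg (by linarith only [hc, hμ1])]; exact hμ1'
  obtain ⟨κ, hκ, hκb⟩ : ∃ κ, R1_ = κ * R ∧ |κ| ≤ 28 := by
    refine ⟨R1_ / R, by field_simp, ?_⟩
    rw [abs_of_nonneg (div_nonneg (by linarith only [hR0, hR1a]) hR0.le), div_le_iff₀ hR0]
    exact hR1b
  obtain ⟨ρ, hρ, hρb⟩ : ∃ ρ, h * R = l * x * ρ ∧ |ρ| ≤ CR := by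
    refine ⟨h * R / (l * x), by field_simp, ?_⟩
    rw [abs_div, abs_mul, abs_of_pos hlx, abs_of_pos hR0, div_le_iff₀ hlx]
    exact hhR
  have hE := Ee_id l x h h' f n n' R ρ κ μ1 μ2 hρ
  rw [← hκ] at hE
  have hmain := main_bound l x h h' f n n' μ1 μ2 Λ CB c δ K hl hΛ hh1 hh2 hf hc hμ1 hμ1' hμ2
    hl8 hlK hPs
  have ba : |x| ≤ 1 := by rw [abs_of_pos hx]; exact hx1
  have bl : |l| ≤ 1 := by rw [abs_of_pos hl]; exact hl1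
  have hP2 := vec10_bound x l h h' f ρ κ R μ1 μ2 Λ CR CB B2 ba bl hΛ hh1 hh2 hf hCR hCB hρb hκb
    b7 b8 hμ2 hB2
  have hEle : Ee l x h h' f (h' - 4 * f) n n' R R1_ μ1 μ2 ≤ -(l ^ 2 * δ) + x * B2 := by
    rw [hE]
    have t1 := mul_le_mul_of_nonneg_left (abs_le.1 hP2).2 hx.le
    linarith only [t1, hmain]
  have A1 := A_id l x h h' f R R1_ Rz_ μ1 μ2 _ 1 (Or.inl rfl) hid
  have A2 := A_id l x h h' f R R1_ Rz_ μ1 μ2 _ (-1) (Or.inr rfl) hid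
  have v1 := vec_bound l x h h' f R R1_ Rz_ μ1 μ2 Λ CR CB B3 1 (by norm_num) hl hl1 hx hx1 hΛ
    hh1 hh2 hf hCR hCB b7 b71 hRz b8 hμ2 hB3
  have v2 := vec_bound l x h h' f R R1_ Rz_ μ1 μ2 Λ CR CB B3 (-1) (by norm_num) hl hl1 hx hx1 hΛ
    hh1 hh2 hf hCR hCB b7 b71 hRz b8 hμ2 hB3
  exact ⟨final_plus x _ _ B2 B3 (l ^ 2 * δ) _ _ hx hEle v1 hx0 A1,
    final_minus x _ _ B2 B3 (l ^ 2 * δ) _ _ hx hEle v2 hx0 A2⟩

lemma Lpol_par (bx bt bxx bxt btt : ℝ) :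
    Lpol (-bx) bt bxx (-bxt) btt = Lpol bx bt bxx bxt btt := by
  unfold Lpol; ring

theorem barrier_ok (hP : stmtProf) (hPsi : stmtPsi) (hR : stmtR) (hB : stmtBoundS)
    (hE : stmtEvenS) : stmtBarrier := by
  obtain ⟨Λ, hΛ1, hΛ⟩ := hP.bdd
  obtain ⟨CR, hCR1, hRR⟩ := hR
  obtain ⟨c, CB, hc, hCB, hBB⟩ := hB
  obtain ⟨δ, K, hδ, hK, hPs⟩ := hPsi (17 * Λ * CB)
  obtain ⟨B2, hB2p, hB2⟩ := bdd_of_cont P2 P2_cont (Λ + CR + CB + 28)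
  set l : ℝ := min 1 (min (c / (8 * CB)) (c / K)) with hldef
  have hl : 0 < l := by
    rw [hldef]; positivity
  have hl1 : l ≤ 1 := min_le_left _ _
  have hl8 : 8 * CB * l ≤ c := by
    have : l ≤ c / (8 * CB) := (min_le_right _ _).trans (min_le_left _ _)
    rw [le_div_iff₀ (by positivity)] at this
    linarith
  have hlK : l * K ≤ c := by
    have : l ≤ c / K := (min_le_right _ _).trans (min_le_right _ _)
    rwa [le_div_iff₀ hK] at this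
  obtain ⟨B3, hB3p, hB3⟩ := bdd_of_cont Pr Pr_cont ((5 * Λ + 30 * CR + CB) / l)
  refine ⟨l, hl, hl1, min (1 / 3) (l ^ 2 * δ / (B2 + B3)), by positivity, min_le_left _ _, ?_⟩
  have pos : ∀ x t : ℝ, 0 < x → x < min (1 / 3) (l ^ 2 * δ / (B2 + B3)) →
      Lpol (ax l x t + 1 * sx l x t) (at' l x t + 1 * st l x t) (axx l x t + 1 * sxx l x t)
      (axt l x t + 1 * sxt l x t) (att l x t + 1 * stt l x t) ≤
      Lpol (ax l x t) (at' l x t) (axx l x t) (axt l x t) (att l x t) ∧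
      Lpol (ax l x t) (at' l x t) (axx l x t) (axt l x t) (att l x t) ≤
      Lpol (ax l x t + (-1) * sx l x t) (at' l x t + (-1) * st l x t)
        (axx l x t + (-1) * sxx l x t)
      (axt l x t + (-1) * sxt l x t) (att l x t + (-1) * stt l x t) := by
    intro x t hx hx0
    have hx3 : x < 1 / 3 := hx0.trans_le (min_le_left _ _)
    have hx4 : x < l ^ 2 * δ / (B2 + B3) := hx0.trans_le (min_le_right _ _)
    have hBB2 : 0 < B2 + B3 := by positivity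
    rw [lt_div_iff₀ hBB2] at hx4
    obtain ⟨b1, b2, b3, b4, b5⟩ := hBB l hl hl1 x t hx hx3
    have habs : |x| = x := abs_of_pos hx
    obtain ⟨r1, r2, r3, r4, r5, r6, r7, r8, r9⟩ := hRR l hl hl1 x (zz l x t) hx.ne'
      (by rw [habs]; exact hx3.le)
    rw [habs] at r7 r8
    obtain ⟨p1, p2, p3, p4, p5, p6, p7, p8, p9⟩ := hΛ (zz l x t)
    have hx8 : 0 < x ^ 8 := by positivity
    obtain ⟨μ1, hμ⟩ : ∃ μ1, m1 l x t = x ^ 8 * μ1 := ⟨m1 l x t / x ^ 8, by field_simp⟩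
    obtain ⟨μ2, hμ'⟩ : ∃ μ2, m2 l x t = x ^ 8 * μ2 := ⟨m2 l x t / x ^ 8, by field_simp⟩
    rw [hμ] at b3 b4
    rw [hμ', abs_mul, abs_of_pos hx8] at b5
    have q1 : c ≤ μ1 := by
      have : x ^ 8 * c ≤ x ^ 8 * μ1 := by linarith
      exact le_of_mul_le_mul_left this hx8
    have q2 : μ1 ≤ CB := by
      have : x ^ 8 * μ1 ≤ x ^ 8 * CB := by linarith
      exact le_of_mul_le_mul_left this hx8
    have q3 : |μ2| ≤ CB := by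
      have : x ^ 8 * |μ2| ≤ x ^ 8 * CB := by linarith
      exact le_of_mul_le_mul_left this hx8
    have main := pos_case l x (hh (zz l x t)) (hh' (zz l x t)) (ph (zz l x t)) (nn (zz l x t))
      (nn' (zz l x t)) (Mh l x (zz l x t)) (Mx l x (zz l x t)) (Mz l x (zz l x t))
      (Rr l x (zz l x t)) (R1 l x (zz l x t)) (Rz l x (zz l x t)) μ1 μ2 Λ CR CB c δ K B2 B3
      hl hl1 hx (by linarith) hΛ1 p1 p2 p4 hc hCR1 rfl rfl rfl r1 rfl rfl rfl r2 r3 r4 r5 r7 r8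
      q1 q2 q3 hl8 hlK (hPs (zz l x t)) hB2 hB3 hx4.le
    have e1 : st l x t = l * (x ^ 8 * Rr l x (zz l x t) - x ^ 8 * μ1) := by
      rw [← hμ]; rfl
    have e2 : stt l x t = l ^ 2 * (x ^ 8 * (Rz l x (zz l x t) - R1 l x (zz l x t)) +
        x ^ 8 * μ2) := by
      rw [← hμ']; rfl
    rw [e1, e2]
    exact main
  have symA : ∀ x t : ℝ, ax l (-x) t = -ax l x t ∧ at' l (-x) t = at' l x t ∧
      axx l (-x) t = axx l x t ∧ axt l (-x) t = -axt l x t ∧ att l (-x) t = att l x t := by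
    intro x t
    unfold ax at' axx axt att zz
    rw [Real.log_neg_eq_log]
    refine ⟨by ring, by ring, by ring, by ring, by ring⟩
  have symR : ∀ x z : ℝ, Rr l (-x) z = Rr l x z ∧ R1 l (-x) z = R1 l x z ∧
      Rz l (-x) z = Rz l x z := by
    intro x z
    have h1 : Mh l (-x) z = Mh l x z := by unfold Mh; ring
    have h2 : Mx l (-x) z = Mx l x z := by unfold Mx; ring
    have h3 : Mz l (-x) z = Mz l x z := by unfold Mz; ring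
    have h4 : Rr l (-x) z = Rr l x z := by unfold Rr; rw [h1]; ring
    refine ⟨h4, ?_, ?_⟩
    · unfold R1; rw [h4, h1, h2]
    · unfold Rz; rw [h4, h1, h3]; ring
  have symS : ∀ x t : ℝ, sx l (-x) t = -sx l x t ∧ st l (-x) t = st l x t ∧
      sxx l (-x) t = sxx l x t ∧ sxt l (-x) t = -sxt l x t ∧ stt l (-x) t = stt l x t := by
    intro x t
    obtain ⟨g0, g1, g2⟩ := hE l x t
    have hz : zz l (-x) t = zz l x t := by unfold zz; rw [Real.log_neg_eq_log]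
    obtain ⟨s1, s2, s3⟩ := symR x (zz l x t)
    unfold sx st sxx sxt stt
    rw [hz, s1, s2, s3, g1, g2]
    refine ⟨by ring, by ring, by ring, by ring, by ring⟩
  intro x t hx
  rcases lt_trichotomy x 0 with h | h | h
  · have hx' : -x < min (1 / 3) (l ^ 2 * δ / (B2 + B3)) := by
      rwa [abs_of_neg h] at hx
    obtain ⟨P1, P2'⟩ := pos (-x) t (by linarith) hx'
    obtain ⟨a1, a2, a3, a4, a5⟩ := symA x t
    obtain ⟨s1, s2, s3, s4, s5⟩ := symS x t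
    rw [a1, a2, a3, a4, a5, s1, s2, s3, s4, s5] at P1 P2'
    rw [Lpol_par (ax l x t) _ _ (axt l x t) _] at P1 P2'
    have f1 : -ax l x t + 1 * -sx l x t = -(ax l x t + sx l x t) := by ring
    have f2 : -axt l x t + 1 * -sxt l x t = -(axt l x t + sxt l x t) := by ring
    have f3 : -ax l x t + (-1) * -sx l x t = -(ax l x t - sx l x t) := by ring
    have f4 : -axt l x t + (-1) * -sxt l x t = -(axt l x t - sxt l x t) := by ring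
    rw [f1, f2, Lpol_par] at P1
    rw [f3, f4, Lpol_par] at P2'
    simp only [one_mul, neg_one_mul, ← sub_eq_add_neg] at P1 P2'
    exact ⟨P1, P2'⟩
  · subst h
    have z1 : m1 l 0 t = 0 := by unfold m1; simp
    have z2 : m2 l 0 t = 0 := by unfold m2; simp
    unfold ax at' axx axt att sx st sxx sxt stt
    rw [z1, z2]
    norm_num
  · have hx' : x < min (1 / 3) (l ^ 2 * δ / (B2 + B3)) := by
      rwa [abs_of_pos h] at hx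
    obtain ⟨P1, P2'⟩ := pos x t h hx'
    simp only [one_mul, neg_one_mul, ← sub_eq_add_neg] at P1 P2'
    exact ⟨P1, P2'⟩

end Pool.Agent.Helper82.PL
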