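import Pool.Agent.Helper82.PL.Defs

set_option autoImplicit false

open MeasureTheory Set Filter Topology

namespace Pool.Agent.Helper82.PL

lemma isOpen_D' : IsOpen D := isOpen_lt continuous_const continuous_norm

lemma D_sub : D ⊆ ({0}ᶜ : Set E2) := by
  intro x hx h
  simp only [mem_singleton_iff] at h
  subst h
  simp [D] at hx
  linarith

lemma gradient_sub_const' (f : E2 → ℝ) (c : ℝ) :
    gradient (fun p => f p - c) = gradient f := by
  funext p
  unfold gradient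
  rw [fderiv_sub_const]

lemma flux_sub_const (f : E2 → ℝ) (c : ℝ) : flux (fun p => f p - c) = flux f := by
  funext p
  unfold flux
  rw [gradient_sub_const']

lemma LL_sub_const (f : E2 → ℝ) (c : ℝ) : LL (fun p => f p - c) = LL f := by
  funext p
  unfold LL
  rw [flux_sub_const, gradient_sub_const']

lemma Jet.add {S : Set (ℝ × ℝ)} {b bx bt bxx bxt btt b' bx' bt' bxx' bxt' btt' : ℝ → ℝ → ℝ}
    (h : Jet S b bx bt bxx bxt btt) (h' : Jet S b' bx' bt' bxx' bxt' btt') :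
    Jet S (fun x t => b x t + b' x t) (fun x t => bx x t + bx' x t) (fun x t => bt x t + bt' x t)
      (fun x t => bxx x t + bxx' x t) (fun x t => bxt x t + bxt' x t)
      (fun x t => btt x t + btt' x t) where
  d0 p hp := ((h.d0 p hp).add (h'.d0 p hp)).congr_fderiv (by ext <;> simp)
  d1 p hp := ((h.d1 p hp).add (h'.d1 p hp)).congr_fderiv (by ext <;> simp)
  d2 p hp := ((h.d2 p hp).add (h'.d2 p hp)).congr_fderiv (by ext <;> simp)
  c0 := h.c0.add h'.c0
  c1 := h.c1.add h'.c1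
  c2 := h.c2.add h'.c2

lemma Jet.sub {S : Set (ℝ × ℝ)} {b bx bt bxx bxt btt b' bx' bt' bxx' bxt' btt' : ℝ → ℝ → ℝ}
    (h : Jet S b bx bt bxx bxt btt) (h' : Jet S b' bx' bt' bxx' bxt' btt') :
    Jet S (fun x t => b x t - b' x t) (fun x t => bx x t - bx' x t) (fun x t => bt x t - bt' x t)
      (fun x t => bxx x t - bxx' x t) (fun x t => bxt x t - bxt' x t)
      (fun x t => btt x t - btt' x t) where
  d0 p hp := ((h.d0 p hp).sub (h'.d0 p hp)).congr_fderiv (by ext <;> simp)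
  d1 p hp := ((h.d1 p hp).sub (h'.d1 p hp)).congr_fderiv (by ext <;> simp)
  d2 p hp := ((h.d2 p hp).sub (h'.d2 p hp)).congr_fderiv (by ext <;> simp)
  c0 := h.c0.sub h'.c0
  c1 := h.c1.sub h'.c1
  c2 := h.c2.sub h'.c2

lemma Jet.mono {S S' : Set (ℝ × ℝ)} {b bx bt bxx bxt btt : ℝ → ℝ → ℝ}
    (h : Jet S b bx bt bxx bxt btt) (hS : S' ⊆ S) : Jet S' b bx bt bxx bxt btt where
  d0 p hp := h.d0 p (hS hp)
  d1 p hp := h.d1 p (hS hp)
  d2 p hp := h.d2 p (hS hp)
  c0 := h.c0.mono hS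
  c1 := h.c1.mono hS
  c2 := h.c2.mono hS

lemma tan_small {x1 : ℝ} (h1 : 0 < x1) (h2 : x1 < 1) : 0 < Real.tan x1 ∧
    ∀ a b : ℝ, 0 < b → (|a| ≤ Real.tan x1 * b ↔ |Real.arctan (a / b)| ≤ x1) := by
  have hpi := Real.pi_gt_three
  have ht : 0 < Real.tan x1 := Real.tan_pos_of_pos_of_lt_pi_div_two h1 (by linarith)
  refine ⟨ht, fun a b hb => ?_⟩
  have e1 : |a| ≤ Real.tan x1 * b ↔ |a / b| ≤ Real.tan x1 := by
    rw [abs_div, abs_of_pos hb, div_le_iff₀ hb]
  have e2 : Real.arctan (Real.tan x1) = x1 := Real.arctan_tan (by linarith) (by linarith)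
  rw [e1, abs_le, abs_le]
  constructor
  · rintro ⟨q1, q2⟩
    constructor
    · have := Real.arctan_strictMono.monotone q1
      rwa [Real.arctan_neg, e2] at this
    · have := Real.arctan_strictMono.monotone q2
      rwa [e2] at this
  · rintro ⟨q1, q2⟩
    constructor
    · have : Real.arctan (-Real.tan x1) ≤ Real.arctan (a / b) := by
        rw [Real.arctan_neg, e2]; exact q1
      exact Real.arctan_strictMono.le_iff_le.1 this
    · have : Real.arctan (a / b) ≤ Real.arctan (Real.tan x1) := by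
        rw [e2]; exact q2
      exact Real.arctan_strictMono.le_iff_le.1 this

lemma th_neg (p : E2) : th p = Real.arctan ((-p 1) / (-p 0)) := by
  unfold th; rw [neg_div_neg_eq]

lemma coord_zero {p : E2} (h0 : p 0 = 0) (h1 : p 1 = 0) : p = 0 := by
  ext i
  fin_cases i
  · exact h0
  · exact h1

lemma cont_coord (i : Fin 2) : Continuous (fun p : E2 => p i) := by fun_prop

/-- sector around the positive (q = 1) or negative (q = -1) half axis -/
def Sq (q x0 : ℝ) : Set E2 := {p | p ∈ D ∧ 0 < q * p 0 ∧ |th p| < x0}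

lemma Sq_sub_D (q x0 : ℝ) : Sq q x0 ⊆ D := fun _ hp => hp.1

lemma Sq_sub_P (q x0 : ℝ) : Sq q x0 ⊆
    {p : E2 | p 0 ≠ 0 ∧ (th p, tt p) ∈ {x : ℝ × ℝ | |x.1| < x0}} := by
  intro p hp
  refine ⟨fun h => ?_, hp.2.2⟩
  have := hp.2.1
  rw [h, mul_zero] at this
  exact lt_irrefl _ this

lemma strip_open (x0 : ℝ) : IsOpen {x : ℝ × ℝ | |x.1| < x0} :=
  isOpen_lt (continuous_abs.comp continuous_fst) continuous_const

lemma Sq_open (hPolar : stmtPolar) (hJetA : stmtJetA) {l : ℝ} (hl : 0 < l) (hl1 : l ≤ 1)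
    (q x0 : ℝ) : IsOpen (Sq q x0) := by
  obtain ⟨h1, -, -, -⟩ := hPolar _ (strip_open x0) _ _ _ _ _ _
    ((hJetA l hl hl1).mono (subset_univ _))
  have : Sq q x0 = (D ∩ {p : E2 | 0 < q * p 0}) ∩
      {p : E2 | p 0 ≠ 0 ∧ (th p, tt p) ∈ {x : ℝ × ℝ | |x.1| < x0}} := by
    ext p
    constructor
    · intro hp
      exact ⟨⟨hp.1, hp.2.1⟩, Sq_sub_P q x0 hp⟩
    · rintro ⟨⟨h1, h2⟩, h3, h4⟩
      exact ⟨h1, h2, h4⟩
  rw [this]
  exact (isOpen_D'.inter (isOpen_lt continuous_const (continuous_const.mul (cont_coord 0)))).inter h1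

lemma VV_sector (hJetAA : stmtJetAA) {l : ℝ} (hl : 0 < l) (hl1 : l ≤ 1) {p : E2}
    (hp : |th p| ≤ 1 / 3) :
    VV l p = Lpol (ax l (th p) (tt p)) (at' l (th p) (tt p)) (axx l (th p) (tt p))
      (axt l (th p) (tt p)) (att l (th p) (tt p)) / ‖p‖ ^ 4 ∧
    aa l p = a0 l (th p) (tt p) := by
  obtain ⟨-, h, -⟩ := hJetAA l hl hl1
  obtain ⟨e1, e2, e3, e4, e5, e6⟩ := h (th p) (tt p) hp
  constructor
  · unfold VV
    rw [e2, e3, e4, e5, e6]
  · unfold aa
    exact e1

lemma sector_up (hPolar : stmtPolar) (hJetA : stmtJetA) (hJetS : stmtJetS)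
    (hJetAA : stmtJetAA) {l x0 : ℝ} (hl : 0 < l) (hl1 : l ≤ 1) (hx3 : x0 ≤ 1 / 3)
    (hbar : ∀ x t : ℝ, |x| < x0 →
      Lpol (ax l x t + sx l x t) (at' l x t + st l x t) (axx l x t + sxx l x t)
      (axt l x t + sxt l x t) (att l x t + stt l x t) ≤
      Lpol (ax l x t) (at' l x t) (axx l x t) (axt l x t) (att l x t))
    (q M : ℝ) :
    ContDiffOn ℝ 1 (fun p => a0 l (th p) (tt p) + s0 l (th p) (tt p) - M) (Sq q x0) ∧
    ContDiffOn ℝ 1 (flux (fun p => a0 l (th p) (tt p) + s0 l (th p) (tt p) - M)) (Sq q x0) ∧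
    ∀ p ∈ Sq q x0, LL (fun p => a0 l (th p) (tt p) + s0 l (th p) (tt p) - M) p ≤ VV l p := by
  have jet := ((hJetA l hl hl1).mono (subset_univ {x : ℝ × ℝ | |x.1| < x0})).add
    ((hJetS l hl hl1).mono (S' := {x : ℝ × ℝ | |x.1| < x0})
      (fun x (hx : |x.1| < x0) => (show |x.1| < 1 / 3 from hx.trans_le hx3)))
  obtain ⟨-, h2, h3, h4⟩ := hPolar _ (strip_open x0) _ _ _ _ _ _ jet
  rw [flux_sub_const (fun p => a0 l (th p) (tt p) + s0 l (th p) (tt p)) M,
    LL_sub_const (fun p => a0 l (th p) (tt p) + s0 l (th p) (tt p)) M]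
  refine ⟨(h2.mono (Sq_sub_P q x0)).sub contDiffOn_const, h3.mono (Sq_sub_P q x0), ?_⟩
  intro p hp
  obtain ⟨g1, g2⟩ := Sq_sub_P q x0 hp
  rw [(h4 p g1 g2).2, (VV_sector hJetAA hl hl1 (hp.2.2.le.trans hx3)).1]
  exact div_le_div_of_nonneg_right (hbar _ _ hp.2.2) (by positivity)

lemma sector_down (hPolar : stmtPolar) (hJetA : stmtJetA) (hJetS : stmtJetS)
    (hJetAA : stmtJetAA) {l x0 : ℝ} (hl : 0 < l) (hl1 : l ≤ 1) (hx3 : x0 ≤ 1 / 3)
    (hbar : ∀ x t : ℝ, |x| < x0 →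
      Lpol (ax l x t) (at' l x t) (axx l x t) (axt l x t) (att l x t) ≤
      Lpol (ax l x t - sx l x t) (at' l x t - st l x t) (axx l x t - sxx l x t)
      (axt l x t - sxt l x t) (att l x t - stt l x t))
    (q : ℝ) :
    ContDiffOn ℝ 1 (fun p => a0 l (th p) (tt p) - s0 l (th p) (tt p)) (Sq q x0) ∧
    ContDiffOn ℝ 1 (flux (fun p => a0 l (th p) (tt p) - s0 l (th p) (tt p))) (Sq q x0) ∧
    ∀ p ∈ Sq q x0, VV l p ≤ LL (fun p => a0 l (th p) (tt p) - s0 l (th p) (tt p)) p := by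
  have jet := ((hJetA l hl hl1).mono (subset_univ {x : ℝ × ℝ | |x.1| < x0})).sub
    ((hJetS l hl hl1).mono (S' := {x : ℝ × ℝ | |x.1| < x0})
      (fun x (hx : |x.1| < x0) => (show |x.1| < 1 / 3 from hx.trans_le hx3)))
  obtain ⟨-, h2, h3, h4⟩ := hPolar _ (strip_open x0) _ _ _ _ _ _ jet
  refine ⟨h2.mono (Sq_sub_P q x0), h3.mono (Sq_sub_P q x0), ?_⟩
  intro p hp
  obtain ⟨g1, g2⟩ := Sq_sub_P q x0 hp
  rw [(h4 p g1 g2).2, (VV_sector hJetAA hl hl1 (hp.2.2.le.trans hx3)).1]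
  exact div_le_div_of_nonneg_right (hbar _ _ hp.2.2) (by positivity)

/-- the compact part of the support inside a sector -/
lemma sector_compact {q x1 x0 : ℝ} (hq : q = 1 ∨ q = -1) (h1 : 0 < x1) (h01 : x1 < x0)
    (h2 : x0 ≤ 1 / 3) {T : Set E2} (hT : IsCompact T) (hTD : T ⊆ D) :
    ∃ K : Set E2, IsCompact K ∧ K ⊆ Sq q x0 ∧ K ⊆ T ∧
      ∀ p ∈ T, 0 < q * p 0 → |th p| ≤ x1 → p ∈ K := by
  obtain ⟨ht, hta⟩ := tan_small h1 (by linarith : x1 < 1)
  refine ⟨T ∩ {p : E2 | |p 1| ≤ Real.tan x1 * (q * p 0)}, ?_, ?_, inter_subset_left, ?_⟩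
  · apply hT.inter_right
    apply isClosed_le (continuous_abs.comp (cont_coord 1))
    exact continuous_const.mul (continuous_const.mul (cont_coord 0))
  · rintro p ⟨hpT, hp⟩
    simp only [mem_setOf_eq] at hp
    have hpos : 0 < q * p 0 := by
      by_contra hneg
      have hneg : q * p 0 ≤ 0 := not_lt.1 hneg
      have hle : Real.tan x1 * (q * p 0) ≤ 0 := mul_nonpos_of_nonneg_of_nonpos ht.le hneg
      have h0 : |p 1| ≤ 0 := hp.trans hle
      have hp1 : p 1 = 0 := abs_eq_zero.1 (le_antisymm h0 (abs_nonneg _))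
      have hp0 : q * p 0 = 0 := by
        rw [hp1, abs_zero] at hp
        have : 0 ≤ q * p 0 := by
          by_contra hh
          have := mul_neg_of_pos_of_neg ht (not_le.1 hh)
          linarith
        linarith
      have hp0' : p 0 = 0 := by
        rcases hq with rfl | rfl
        · simpa using hp0
        · simpa using hp0
      exact D_sub (hTD hpT) (coord_zero hp0' hp1)
    refine ⟨hTD hpT, hpos, ?_⟩
    refine lt_of_le_of_lt ?_ h01
    rcases hq with rfl | rfl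
    · rw [one_mul] at hpos hp
      exact (hta _ _ hpos).1 hp
    · rw [th_neg]
      rw [neg_one_mul] at hpos hp
      exact (hta _ _ hpos).1 (by rw [abs_neg]; exact hp)
  · intro p hpT hpos hth
    refine ⟨hpT, ?_⟩
    simp only [mem_setOf_eq]
    rcases hq with rfl | rfl
    · rw [one_mul] at hpos ⊢
      exact (hta _ _ hpos).2 hth
    · rw [th_neg] at hth
      rw [neg_one_mul] at hpos ⊢
      have := (hta _ _ hpos).2 hth
      rwa [abs_neg] at this

lemma s0_facts (hBound : stmtBoundS) (hEven : stmtEvenS) : ∃ c : ℝ, 0 < c ∧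
    ∀ l : ℝ, 0 < l → l ≤ 1 → ∀ x t : ℝ, |x| < 1 / 3 → c * |x| ^ 8 ≤ s0 l x t ∧ s0 l 0 t = 0 := by
  obtain ⟨c, C, hc, hC, hB⟩ := hBound
  refine ⟨c, hc, fun l hl hl1 x t hx => ⟨?_, by unfold s0; simp⟩⟩
  rcases lt_trichotomy x 0 with h | h | h
  · have := (hB l hl hl1 (-x) t (by linarith) (by rwa [abs_of_neg h] at hx)).1
    rw [(hEven l x t).1] at this
    rwa [abs_of_neg h]
  · subst h
    have : s0 l 0 t = 0 := by unfold s0; simp
    rw [this]; simp
  · rw [abs_of_pos h] at hx ⊢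
    exact (hB l hl hl1 x t h hx).1

lemma base_ok {l M C1 C2 : ℝ} (hM : 0 < M)
    (hC1 : 0 < C1) (hC2 : 0 < C2)
    (u1 : ContDiffOn ℝ 1 (aa l) {0}ᶜ) (u4 : Measurable (VV l))
    (u5 : ∀ p : E2, p ≠ 0 → |aa l p| ≤ C1 ∧ ‖gradient (aa l) p‖ ≤ C1 / ‖p‖ ∧
      |VV l p| ≤ C1 / ‖p‖ ^ 4)
    (o1 : ContDiffOn ℝ 1 om {0}ᶜ) (o2 : ∀ p, 0 ≤ om p ∧ om p ≤ 1)
    (o5 : ∀ p : E2, p ≠ 0 → ‖gradient om p‖ ≤ C2 / ‖p‖) :
    Base (fun p => aa l p - M * om p) (VV l) (C1 + M * C2 + M) where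
  c1 := (u1.mono D_sub).sub (contDiffOn_const.mul (o1.mono D_sub))
  bd x hx := by
    have hx0 := D_sub hx
    have h1 := (u5 x hx0).1
    obtain ⟨h2, h3⟩ := o2 x
    have h4 := abs_sub (aa l x) (M * om x)
    rw [abs_mul, abs_of_pos hM, abs_of_nonneg h2] at h4
    have h5 : M * om x ≤ M * 1 := mul_le_mul_of_nonneg_left h3 hM.le
    have h6 : 0 < M * C2 := by positivity
    linarith
  gd x hx := by
    have hx0 := D_sub hx
    have hn : 0 < ‖x‖ := norm_pos_iff.2 hx0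
    have d1 : DifferentiableAt ℝ (aa l) x :=
      (u1.differentiableOn (by norm_num)).differentiableAt (isOpen_compl_singleton.mem_nhds hx0)
    have d2 : DifferentiableAt ℝ om x :=
      (o1.differentiableOn (by norm_num)).differentiableAt (isOpen_compl_singleton.mem_nhds hx0)
    have e : gradient (fun p => aa l p - M * om p) x = gradient (aa l) x - M • gradient om x := by
      unfold gradient
      have : fderiv ℝ (fun p => aa l p - M * om p) x = fderiv ℝ (aa l) x - M • fderiv ℝ om x := by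
        have h := (d1.hasFDerivAt).sub ((d2.hasFDerivAt).const_mul M)
        exact h.fderiv
      rw [this, map_sub, map_smulₛₗ]
      rfl
    rw [e]
    have h1 := (u5 x hx0).2.1
    have h2 := o5 x hx0
    calc ‖gradient (aa l) x - M • gradient om x‖ ≤ ‖gradient (aa l) x‖ + ‖M • gradient om x‖ :=
          norm_sub_le _ _
      _ = ‖gradient (aa l) x‖ + M * ‖gradient om x‖ := by
          rw [norm_smul, Real.norm_eq_abs, abs_of_pos hM]
      _ ≤ C1 / ‖x‖ + M * (C2 / ‖x‖) := by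
          have := mul_le_mul_of_nonneg_left h2 hM.le
          linarith
      _ = (C1 + M * C2) / ‖x‖ := by ring
      _ ≤ _ := by
          apply div_le_div_of_nonneg_right _ hn.le
          linarith
  vm := u4
  vb x hx := by
    have hx0 := D_sub hx
    refine (u5 x hx0).2.2.trans ?_
    apply div_le_div_of_nonneg_right _ (by positivity)
    have : 0 < M * C2 := by positivity
    linarith

lemma adm_zero_off {w : E2 → ℝ} {x : E2} (hx : x ∉ tsupport w) : w x = 0 :=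
  image_eq_zero_of_notMem_tsupport hx

/-- the projection onto the constraint set does not increase the energy -/
lemma proj_ok (hUp : stmtTruncUp) (hDown : stmtTruncDown) (hPolar : stmtPolar)
    (hJetA : stmtJetA) (hJetS : stmtJetS) (hJetAA : stmtJetAA)
    {l x0 x1 M C0 c : ℝ} (hl : 0 < l) (hl1 : l ≤ 1) (h1 : 0 < x1)
    (h01 : x1 < x0) (hx3 : x0 ≤ 1 / 3)
    (hbar : ∀ x t : ℝ, |x| < x0 →
      Lpol (ax l x t + sx l x t) (at' l x t + st l x t) (axx l x t + sxx l x t)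
      (axt l x t + sxt l x t) (att l x t + stt l x t) ≤
      Lpol (ax l x t) (at' l x t) (axx l x t) (axt l x t) (att l x t) ∧
      Lpol (ax l x t) (at' l x t) (axx l x t) (axt l x t) (att l x t) ≤
      Lpol (ax l x t - sx l x t) (at' l x t - st l x t) (axx l x t - sxx l x t)
      (axt l x t - sxt l x t) (att l x t - stt l x t))
    (hc : 0 < c) (hs : ∀ x t : ℝ, |x| < 1 / 3 → c * |x| ^ 8 ≤ s0 l x t)
    (hM : M = c * x1 ^ 8)
    (u1 : ContDiffOn ℝ 1 (aa l) {0}ᶜ) (u2 : ContDiffOn ℝ 1 (flux (aa l)) {0}ᶜ)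
    (u3 : ∀ p : E2, p ≠ 0 → LL (aa l) p = VV l p)
    (o2 : ∀ p, 0 ≤ om p ∧ om p ≤ 1) (o3 : ∀ p : E2, 0 < p 0 → |th p| ≤ 1 / 3 → om p = 1)
    (o4 : ∀ p : E2, p 0 ≤ 0 → om p = 0)
    (hbase : Base (fun p => aa l p - M * om p) (VV l) C0)
    (w : E2 → ℝ) (hw : IsAdm w) :
    ∃ w', IsAdm w' ∧ J (fun p => aa l p - M * om p) (VV l) w' ≤
        J (fun p => aa l p - M * om p) (VV l) w ∧
      (∀ x ∈ D, M * om x - M ≤ w' x ∧ w' x ≤ M * om x) ∧
      (∀ x ∈ Sq 1 x0, w' x ≤ s0 l (th x) (tt x)) ∧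
      (∀ x ∈ Sq (-1) x0, -s0 l (th x) (tt x) ≤ w' x) := by
  have hMpos : 0 < M := by rw [hM]; positivity
  -- facts on s0
  have hs_nonneg : ∀ p : E2, |th p| < 1 / 3 → 0 ≤ s0 l (th p) (tt p) := fun p hp =>
    le_trans (by positivity) (hs _ _ hp)
  have hs_big : ∀ p : E2, |th p| < 1 / 3 → x1 < |th p| → M ≤ s0 l (th p) (tt p) := by
    intro p hp hp1
    refine le_trans ?_ (hs _ _ hp)
    rw [hM]
    apply mul_le_mul_of_nonneg_left _ hc.le
    exact pow_le_pow_left₀ h1.le hp1.le 8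
  -- T1
  obtain ⟨w1, a1, j1, k1, -⟩ := hUp _ _ _ hbase D isOpen_D' subset_rfl (aa l) (u1.mono D_sub)
    (u2.mono D_sub) (fun x hx => (u3 x (D_sub hx)).le) w hw (tsupport w) hw.2.1 hw.2.2
    (fun x _ hxK => by
      rw [adm_zero_off hxK]
      have := mul_nonneg hMpos.le (o2 x).1
      linarith)
  have k1' : ∀ x ∈ D, w1 x = min (w x) (M * om x) := by
    intro x hx
    rw [k1 x hx]
    congr 1
    ring
  -- T2
  obtain ⟨w2, a2, j2, k2, -⟩ := hDown _ _ _ hbase D isOpen_D' subset_rfl (fun p => aa l p - M)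
    ((u1.mono D_sub).sub contDiffOn_const)
    (by rw [flux_sub_const]; exact u2.mono D_sub)
    (fun x hx => by rw [LL_sub_const]; exact (u3 x (D_sub hx)).ge) w1 a1 (tsupport w1)
    a1.2.1 a1.2.2
    (fun x _ hxK => by
      rw [adm_zero_off hxK]
      have := mul_le_mul_of_nonneg_left (o2 x).2 hMpos.le
      linarith)
  have k2' : ∀ x ∈ D, w2 x = max (w1 x) (M * om x - M) := by
    intro x hx
    rw [k2 x hx]
    congr 1
    ring
  have b2 : ∀ x ∈ D, M * om x - M ≤ w2 x ∧ w2 x ≤ M * om x := by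
    intro x hx
    rw [k2' x hx]
    refine ⟨le_max_right _ _, max_le ?_ (by linarith)⟩
    rw [k1' x hx]
    exact min_le_right _ _
  -- T3
  obtain ⟨K3, hK3c, hK3S, -, hK3⟩ := sector_compact (q := 1) (Or.inl rfl) h1 h01 hx3 a2.2.1 a2.2.2
  obtain ⟨p1, p2, p3⟩ := sector_up hPolar hJetA hJetS hJetAA hl hl1 hx3
    (fun x t hx => (hbar x t hx).1) 1 M
  obtain ⟨w3, a3, j3, k3, k3n⟩ := hUp _ _ _ hbase (Sq 1 x0) (Sq_open hPolar hJetA hl hl1 1 x0)
    (Sq_sub_D 1 x0) _ p1 p2 p3 w2 a2 K3 hK3c hK3S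
    (fun x hx hxK => by
      obtain ⟨hxD, hx0', hxth⟩ := hx
      rw [one_mul] at hx0'
      have hth3 : |th x| < 1 / 3 := hxth.trans_le hx3
      have e1 := (VV_sector hJetAA hl hl1 hth3.le).2
      have e2 := o3 x hx0' hth3.le
      have e3 := hs_nonneg x hth3
      by_cases hT : x ∈ tsupport w2
      · have h4 : x1 < |th x| := by
          by_contra hcon
          exact hxK (hK3 x hT (by rw [one_mul]; exact hx0') (not_lt.1 hcon))
        have e4 := hs_big x hth3 h4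
        have e5 := (b2 x hxD).2
        show aa l x - M * om x + w2 x ≤ a0 l (th x) (tt x) + s0 l (th x) (tt x) - M
        rw [← e1]
        linarith
      · rw [adm_zero_off hT]
        show aa l x - M * om x + 0 ≤ a0 l (th x) (tt x) + s0 l (th x) (tt x) - M
        rw [← e1, e2]
        linarith)
  have k3' : ∀ x ∈ Sq 1 x0, w3 x = min (w2 x) (s0 l (th x) (tt x)) := by
    intro x hx
    rw [k3 x hx]
    obtain ⟨hxD, hx0', hxth⟩ := hx
    rw [one_mul] at hx0'
    have hth3 : |th x| < 1 / 3 := hxth.trans_le hx3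
    have e1 := (VV_sector hJetAA hl hl1 hth3.le).2
    have e2 := o3 x hx0' hth3.le
    congr 1
    show a0 l (th x) (tt x) + s0 l (th x) (tt x) - M - (aa l x - M * om x) = _
    rw [← e1, e2]
    ring
  have b3 : ∀ x ∈ D, M * om x - M ≤ w3 x ∧ w3 x ≤ M * om x := by
    intro x hx
    by_cases hS : x ∈ Sq 1 x0
    · rw [k3' x hS]
      obtain ⟨hxD, hx0', hxth⟩ := hS
      rw [one_mul] at hx0'
      have hth3 : |th x| < 1 / 3 := hxth.trans_le hx3
      have e2 := o3 x hx0' hth3.le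
      have e3 := hs_nonneg x hth3
      refine ⟨le_min (b2 x hx).1 ?_, (min_le_left _ _).trans (b2 x hx).2⟩
      rw [e2]
      linarith
    · rw [k3n x hS]
      exact b2 x hx
  -- T4
  obtain ⟨K4, hK4c, hK4S, -, hK4⟩ := sector_compact (q := -1) (Or.inr rfl) h1 h01 hx3
    a3.2.1 a3.2.2
  obtain ⟨q1, q2, q3⟩ := sector_down hPolar hJetA hJetS hJetAA hl hl1 hx3
    (fun x t hx => (hbar x t hx).2) (-1)
  obtain ⟨w4, a4, j4, k4, k4n⟩ := hDown _ _ _ hbase (Sq (-1) x0)
    (Sq_open hPolar hJetA hl hl1 (-1) x0) (Sq_sub_D (-1) x0) _ q1 q2 q3 w3 a3 K4 hK4c hK4S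
    (fun x hx hxK => by
      obtain ⟨hxD, hx0', hxth⟩ := hx
      have hx0'' : x 0 < 0 := by linarith
      have hth3 : |th x| < 1 / 3 := hxth.trans_le hx3
      have e1 := (VV_sector hJetAA hl hl1 hth3.le).2
      have e2 := o4 x hx0''.le
      have e3 := hs_nonneg x hth3
      by_cases hT : x ∈ tsupport w3
      · have h4 : x1 < |th x| := by
          by_contra hcon
          exact hxK (hK4 x hT hx0' (not_lt.1 hcon))
        have e4 := hs_big x hth3 h4
        have e5 := (b3 x hxD).1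
        show a0 l (th x) (tt x) - s0 l (th x) (tt x) ≤ aa l x - M * om x + w3 x
        rw [← e1]
        linarith
      · rw [adm_zero_off hT]
        show a0 l (th x) (tt x) - s0 l (th x) (tt x) ≤ aa l x - M * om x + 0
        rw [← e1, e2]
        linarith)
  have k4' : ∀ x ∈ Sq (-1) x0, w4 x = max (w3 x) (-s0 l (th x) (tt x)) := by
    intro x hx
    rw [k4 x hx]
    obtain ⟨hxD, hx0', hxth⟩ := hx
    have hx0'' : x 0 < 0 := by linarith
    have hth3 : |th x| < 1 / 3 := hxth.trans_le hx3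
    have e1 := (VV_sector hJetAA hl hl1 hth3.le).2
    have e2 := o4 x hx0''.le
    congr 1
    show a0 l (th x) (tt x) - s0 l (th x) (tt x) - (aa l x - M * om x) = _
    rw [← e1, e2]
    ring
  refine ⟨w4, a4, ((j4.trans j3).trans j2).trans j1, ?_, ?_, ?_⟩
  · intro x hx
    by_cases hS : x ∈ Sq (-1) x0
    · rw [k4' x hS]
      obtain ⟨hxD, hx0', hxth⟩ := hS
      have hx0'' : x 0 < 0 := by linarith
      have hth3 : |th x| < 1 / 3 := hxth.trans_le hx3
      have e2 := o4 x hx0''.le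
      have e3 := hs_nonneg x hth3
      refine ⟨(b3 x hx).1.trans (le_max_left _ _), max_le (b3 x hx).2 ?_⟩
      rw [e2]
      linarith
    · rw [k4n x hS]
      exact b3 x hx
  · intro x hx
    have hnot : x ∉ Sq (-1) x0 := by
      intro h
      have := h.2.1
      have := hx.2.1
      linarith
    rw [k4n x hnot, k3' x hx]
    exact min_le_right _ _
  · intro x hx
    rw [k4' x hx]
    exact le_max_right _ _

lemma e0_0 : (e0 : E2) 0 = 1 := by simp [e0]
lemma e0_1 : (e0 : E2) 1 = 0 := by simp [e0]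
lemma norm_e0 : ‖e0‖ = 1 := by simp [e0]

theorem two_sol (hExist : stmtExist) (hUp : stmtTruncUp) (hDown : stmtTruncDown)
    (hPolar : stmtPolar) (hJetA : stmtJetA) (hJetS : stmtJetS) (hJetAA : stmtJetAA)
    (hBound : stmtBoundS) (hEven : stmtEvenS) (hBar : stmtBarrier) (hU : stmtU) (hOm : stmtOm) :
    ∃ l M : ℝ, 0 < l ∧ l ≤ 1 ∧ 0 < M ∧ ∃ (v : E2 → ℝ) (g : E2 → E2), ContinuousOn v D ∧
      (∀ x ∈ D, 0 < v x) ∧
      LocallyIntegrableOn g D ∧ LocallyIntegrableOn (fun x => ‖g x‖ ^ 4) D ∧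
      (∀ φ : E2 → ℝ, ContDiff ℝ (⊤ : ℕ∞) φ → HasCompactSupport φ → tsupport φ ⊆ D →
        ((∫ x, v x • gradient φ x) = -∫ x, φ x • g x) ∧
        (∫ x, (‖g x‖ ^ 2 * inner ℝ (g x) (gradient φ x) + VV l x * v x ^ 3 * φ x)) = 0) ∧
      (∀ R : ℝ, 1 < R → v (R • e0) = Real.exp (aa l (R • e0) - M)) ∧
      (∀ R : ℝ, 1 < R → v ((-R) • e0) = Real.exp (aa l ((-R) • e0))) := by
  obtain ⟨l, hl, hl1, x0, hx0, hx3, hbar⟩ := hBar
  obtain ⟨c, hc, hs⟩ := s0_facts hBound hEven
  obtain ⟨u1, u2, u3, u4, C1, hC1, u5⟩ := hU l hl hl1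
  obtain ⟨o1, o2, o3, o4, C2, hC2, o5⟩ := hOm
  set x1 := x0 / 2 with hx1
  have h1 : 0 < x1 := by rw [hx1]; linarith
  have h01 : x1 < x0 := by rw [hx1]; linarith
  set M := c * x1 ^ 8 with hM
  have hMpos : 0 < M := by rw [hM]; positivity
  have hbase := base_ok (l := l) hMpos hC1 hC2 u1 u4 u5 o1 o2 o5
  have hs1 : ∀ x t : ℝ, |x| < 1 / 3 → c * |x| ^ 8 ≤ s0 l x t :=
    fun x t hx => (hs l hl hl1 x t hx).1
  have hs_zero : ∀ t : ℝ, s0 l 0 t = 0 := fun t => (hs l hl hl1 0 t (by simp)).2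
  have hs_nonneg : ∀ p : E2, |th p| < 1 / 3 → 0 ≤ s0 l (th p) (tt p) := fun p hp =>
    le_trans (by positivity) (hs1 _ _ hp)
  classical
  have hMC : M ≤ C1 + M * C2 + M := by
    have : 0 < M * C2 := by positivity
    linarith
  obtain ⟨v, g, v1, v2, v3, v4, v5⟩ := hExist (fun p => aa l p - M * om p) (VV l)
    (C1 + M * C2 + M) hbase
    (fun p => if p ∈ Sq (-1) x0 then max (M * om p - M) (-s0 l (th p) (tt p)) else M * om p - M)
    (fun p => if p ∈ Sq 1 x0 then min (M * om p) (s0 l (th p) (tt p)) else M * om p)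
    (fun x _ => by
      have h2 := mul_nonneg hMpos.le (o2 x).1
      split_ifs
      · refine le_trans ?_ (le_max_left _ _)
        linarith
      · linarith)
    (fun x _ => by
      have h2 := mul_le_mul_of_nonneg_left (o2 x).2 hMpos.le
      split_ifs
      · refine (min_le_left _ _).trans ?_
        linarith
      · linarith)
    (fun w hw => by
      obtain ⟨w', a, j, b, k1, k2⟩ := proj_ok hUp hDown hPolar hJetA hJetS hJetAA hl hl1 h1 h01
        hx3 hbar hc hs1 hM u1 u2 u3 o2 o3 o4 hbase w hw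
      refine ⟨w', a, fun x hx => ⟨?_, ?_⟩, j⟩
      · show (if x ∈ Sq (-1) x0 then max (M * om x - M) (-s0 l (th x) (tt x))
          else M * om x - M) ≤ w' x
        split_ifs with h
        · exact max_le (b x hx).1 (k2 x h)
        · exact (b x hx).1
      · show w' x ≤ (if x ∈ Sq 1 x0 then min (M * om x) (s0 l (th x) (tt x)) else M * om x)
        split_ifs with h
        · exact le_min (b x hx).2 (k1 x h)
        · exact (b x hx).2)
  refine ⟨l, M, hl, hl1, hMpos, v, g, v1, fun x hx => (Real.exp_pos _).trans_le (v2 x hx).1,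
    v3, v4, v5, ?_, ?_⟩
  · intro R hR
    have hp0 : (R • e0 : E2) 0 = R := by simp [e0_0]
    have hp1 : (R • e0 : E2) 1 = 0 := by simp [e0_1]
    have hth : th (R • e0 : E2) = 0 := by unfold th; rw [hp1, zero_div, Real.arctan_zero]
    have hD : (R • e0 : E2) ∈ D := by
      show 1 < ‖R • e0‖
      rw [norm_smul, norm_e0, mul_one, Real.norm_eq_abs, abs_of_pos (by linarith)]
      exact hR
    have hS : (R • e0 : E2) ∈ Sq 1 x0 := by
      refine ⟨hD, ?_, ?_⟩
      · rw [hp0, one_mul]; linarith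
      · rw [hth, abs_zero]; exact hx0
    have hS' : (R • e0 : E2) ∉ Sq (-1) x0 := by
      intro h
      have := h.2.1
      rw [hp0] at this
      linarith
    have hom : om (R • e0 : E2) = 1 := by
      apply o3
      · rw [hp0]; linarith
      · rw [hth, abs_zero]; norm_num
    have := v2 _ hD
    simp only [if_pos hS, if_neg hS', hth, hs_zero, hom, mul_one, sub_self,
      min_eq_right hMpos.le, add_zero] at this
    exact le_antisymm this.2 this.1
  · intro R hR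
    have hp0 : ((-R) • e0 : E2) 0 = -R := by simp [e0_0]
    have hp1 : ((-R) • e0 : E2) 1 = 0 := by simp [e0_1]
    have hth : th ((-R) • e0 : E2) = 0 := by unfold th; rw [hp1, zero_div, Real.arctan_zero]
    have hD : ((-R) • e0 : E2) ∈ D := by
      show 1 < ‖(-R) • e0‖
      rw [norm_smul, norm_e0, mul_one, Real.norm_eq_abs, abs_neg, abs_of_pos (by linarith)]
      exact hR
    have hS : ((-R) • e0 : E2) ∈ Sq (-1) x0 := by
      refine ⟨hD, ?_, ?_⟩
      · rw [hp0]; linarith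
      · rw [hth, abs_zero]; exact hx0
    have hS' : ((-R) • e0 : E2) ∉ Sq 1 x0 := by
      intro h
      have := h.2.1
      rw [hp0] at this
      linarith
    have hom : om ((-R) • e0 : E2) = 0 := by
      apply o4
      rw [hp0]; linarith
    have := v2 _ hD
    simp only [if_pos hS, if_neg hS', hth, hs_zero, hom, mul_zero, zero_sub, neg_zero, sub_zero,
      add_zero, max_eq_right (neg_nonpos.2 hMpos.le)] at this
    exact le_antisymm this.2 this.1

end Pool.Agent.Helper82.PL
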