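import Pool.Agent.Helper82.PL.Final

set_option autoImplicit false

open MeasureTheory Set Filter Topology

namespace Pool.Agent.Helper82.PL

lemma D_cobdd : D ∈ Bornology.cobounded E2 := by
  have : D = (Metric.closedBall (0 : E2) 1)ᶜ := by
    ext x
    simp [D]
  rw [this]
  exact Bornology.isBounded_def.1 Metric.isBounded_closedBall

lemma tends_cob (q : ℝ) (hq : q = 1 ∨ q = -1) :
    Tendsto (fun R : ℝ => (q * R) • e0) atTop (Bornology.cobounded E2) := by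
  rw [← tendsto_norm_atTop_iff_cobounded]
  have : (fun R : ℝ => ‖(q * R) • e0‖) = fun R => |R| := by
    funext R
    rw [norm_smul, norm_e0, mul_one, Real.norm_eq_abs, abs_mul]
    rcases hq with rfl | rfl <;> simp
  rw [this]
  exact tendsto_abs_atTop_atTop

lemma no_limit {f : E2 → ℝ} {a b : ℝ} (hab : a ≠ b)
    (h1 : ∀ R : ℝ, 1 < R → f (R • e0) = a) (h2 : ∀ R : ℝ, 1 < R → f ((-R) • e0) = b) (C : ℝ) :
    ¬ Tendsto f (Bornology.cobounded E2) (𝓝 C) := by
  intro h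
  have t1 := h.comp (tends_cob 1 (Or.inl rfl))
  have t2 := h.comp (tends_cob (-1) (Or.inr rfl))
  have s1 : Tendsto (f ∘ fun R : ℝ => ((1 : ℝ) * R) • e0) atTop (𝓝 a) := by
    apply tendsto_const_nhds.congr'
    filter_upwards [eventually_gt_atTop (1 : ℝ)] with R hR
    show a = f ((1 * R) • e0)
    rw [one_mul, h1 R hR]
  have s2 : Tendsto (f ∘ fun R : ℝ => ((-1 : ℝ) * R) • e0) atTop (𝓝 b) := by
    apply tendsto_const_nhds.congr'
    filter_upwards [eventually_gt_atTop (1 : ℝ)] with R hR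
    show b = f (((-1) * R) • e0)
    rw [neg_one_mul, h2 R hR]
  exact hab ((tendsto_nhds_unique s1 t1).trans (tendsto_nhds_unique s2 t2).symm)

theorem final_neg (hExist : stmtExist) (hUp : stmtTruncUp) (hDown : stmtTruncDown)
    (hPolar : stmtPolar) (hJetA : stmtJetA) (hJetS : stmtJetS) (hJetAA : stmtJetAA)
    (hBound : stmtBoundS) (hEven : stmtEvenS) (hBar : stmtBarrier) (hU : stmtU) (hOm : stmtOm)
    (hSolU : stmtSolU) :
    ¬ (∀ (d : ℕ), 2 ≤ d → ∀ (p : ℝ), 1 < p →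
  ∀ Sol : (EuclideanSpace ℝ (Fin d) → ℝ) → Set (EuclideanSpace ℝ (Fin d)) →
      (EuclideanSpace ℝ (Fin d) → ℝ) → Prop,
  (∀ V U u, Sol V U u ↔
      (ContinuousOn u U ∧ (∀ x ∈ U, 0 < u x) ∧
        ∃ g : EuclideanSpace ℝ (Fin d) → EuclideanSpace ℝ (Fin d),
          MeasureTheory.LocallyIntegrableOn g U ∧
          MeasureTheory.LocallyIntegrableOn (fun x => ‖g x‖ ^ p) U ∧
          ∀ φ : EuclideanSpace ℝ (Fin d) → ℝ, ContDiff ℝ (⊤ : ℕ∞) φ → HasCompactSupport φ →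
            tsupport φ ⊆ U →
            ((∫ x, u x • gradient φ x) = -∫ x, φ x • g x) ∧
            (∫ x, (‖g x‖ ^ (p - 2) * inner ℝ (g x) (gradient φ x)
                    + V x * u x ^ (p - 1) * φ x)) = 0)) →
  ∀ (L : Filter (EuclideanSpace ℝ (Fin d))) (Ω : Set (EuclideanSpace ℝ (Fin d)))
    (V : EuclideanSpace ℝ (Fin d) → ℝ),
  ((L = nhdsWithin (0 : EuclideanSpace ℝ (Fin d)) {0}ᶜ ∧ (0 : EuclideanSpace ℝ (Fin d)) ∉ Ω)
      ∨ L = Bornology.cobounded (EuclideanSpace ℝ (Fin d))) →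
  IsOpen Ω → IsConnected Ω → Ω ∈ L →
  MeasureTheory.AEStronglyMeasurable V MeasureTheory.volume →
  (∀ K : Set (EuclideanSpace ℝ (Fin d)), IsCompact K → K ⊆ Ω →
      ∃ C : ℝ, ∀ᵐ x ∂MeasureTheory.volume, x ∈ K → |V x| ≤ C) →
  (∃ C : ℝ, ∃ S ∈ L, ∀ᵐ x ∂MeasureTheory.volume, x ∈ S → ‖x‖ ^ p * |V x| ≤ C) →
  (∃ w, Sol V Ω w) →
  ∀ (U W : Set (EuclideanSpace ℝ (Fin d))) (u v : EuclideanSpace ℝ (Fin d) → ℝ),
    IsOpen U → U ⊆ Ω → U ∈ L → IsOpen W → W ⊆ Ω → W ∈ L →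
    Sol V U u → Sol V W v →
    (∃ C : ℝ, 0 < C ∧ Filter.Tendsto (fun x => u x / v x) L (nhds C)) ∨
    Filter.Tendsto (fun x => u x / v x) L (nhds 0) ∨
    (∃ C : ℝ, 0 < C ∧ Filter.Tendsto (fun x => v x / u x) L (nhds C)) ∨
    Filter.Tendsto (fun x => v x / u x) L (nhds 0)) := by
  intro h
  obtain ⟨l, M, hl, hl1, hM, v, g, v1, v2, v3, v4, v5, v6, v7⟩ := two_sol hExist hUp hDown
    hPolar hJetA hJetS hJetAA hBound hEven hBar hU hOm
  obtain ⟨u1, u2, u3, u4, C1, hC1, u5⟩ := hU l hl hl1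
  have e2 : ∀ y : ℝ, y ^ ((4 : ℝ) - 2) = y ^ 2 := by
    intro y
    rw [show (4 : ℝ) - 2 = ((2 : ℕ) : ℝ) by norm_num, Real.rpow_natCast]
  have e3 : ∀ y : ℝ, y ^ ((4 : ℝ) - 1) = y ^ 3 := by
    intro y
    rw [show (4 : ℝ) - 1 = ((3 : ℕ) : ℝ) by norm_num, Real.rpow_natCast]
  have e4 : ∀ y : ℝ, y ^ (4 : ℝ) = y ^ 4 := by
    intro y
    rw [show (4 : ℝ) = ((4 : ℕ) : ℝ) by norm_num, Real.rpow_natCast]
  have hopen0 : IsOpen ({0}ᶜ : Set E2) := isOpen_compl_singleton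
  -- the explicit solution
  have solU : ∀ S : Set E2, IsOpen S → S ⊆ ({0}ᶜ : Set E2) →
      (ContinuousOn (fun x => Real.exp (aa l x)) S ∧ (∀ x ∈ S, 0 < Real.exp (aa l x)) ∧
        ∃ g : E2 → E2, LocallyIntegrableOn g S ∧
          LocallyIntegrableOn (fun x => ‖g x‖ ^ (4 : ℝ)) S ∧
          ∀ φ : E2 → ℝ, ContDiff ℝ (⊤ : ℕ∞) φ → HasCompactSupport φ → tsupport φ ⊆ S →
            ((∫ x, Real.exp (aa l x) • gradient φ x) = -∫ x, φ x • g x) ∧
            (∫ x, (‖g x‖ ^ ((4 : ℝ) - 2) * inner ℝ (g x) (gradient φ x)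
                    + VV l x * Real.exp (aa l x) ^ ((4 : ℝ) - 1) * φ x)) = 0) := by
    intro S hS hS0
    have cA : ContDiffOn ℝ 1 (aa l) S := u1.mono hS0
    have cg : ContinuousOn (fun x => Real.exp (aa l x) • gradient (aa l) x) S := by
      apply (cA.continuousOn.rexp).smul
      have h1 : ContinuousOn (fderiv ℝ (aa l)) S := cA.continuousOn_fderiv_of_isOpen hS le_rfl
      exact (InnerProductSpace.toDual ℝ E2).symm.continuous.comp_continuousOn h1
    refine ⟨cA.continuousOn.rexp, fun x _ => Real.exp_pos _,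
      fun x => Real.exp (aa l x) • gradient (aa l) x, ?_, ?_, ?_⟩
    · exact cg.locallyIntegrableOn hS.measurableSet
    · simp only [e4]
      exact (cg.norm.pow 4).locallyIntegrableOn hS.measurableSet
    · intro φ h1 h2 h3
      have := hSolU S hS (aa l) (VV l) cA (u2.mono hS0) (fun x hx => u3 x (hS0 hx)) φ h1 h2 h3
      refine ⟨this.1, ?_⟩
      simp only [e2, e3]
      exact this.2
  have hD0 := D_sub
  have key := h 2 le_rfl 4 (by norm_num)
    (fun V U u => (ContinuousOn u U ∧ (∀ x ∈ U, 0 < u x) ∧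
        ∃ g : E2 → E2,
          MeasureTheory.LocallyIntegrableOn g U ∧
          MeasureTheory.LocallyIntegrableOn (fun x => ‖g x‖ ^ (4 : ℝ)) U ∧
          ∀ φ : E2 → ℝ, ContDiff ℝ (⊤ : ℕ∞) φ → HasCompactSupport φ →
            tsupport φ ⊆ U →
            ((∫ x, u x • gradient φ x) = -∫ x, φ x • g x) ∧
            (∫ x, (‖g x‖ ^ ((4 : ℝ) - 2) * inner ℝ (g x) (gradient φ x)
                    + V x * u x ^ ((4 : ℝ) - 1) * φ x)) = 0))
    (fun _ _ _ => Iff.rfl) (Bornology.cobounded E2) ({0}ᶜ) (VV l) (Or.inr rfl) hopen0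
    (isConnected_compl_singleton_of_one_lt_rank (by
      rw [← Module.finrank_eq_rank, finrank_euclideanSpace]; norm_num) 0)
    (mem_of_superset D_cobdd hD0) u4.aestronglyMeasurable
    (by
      intro K hK hK0
      by_cases hne : K.Nonempty
      · obtain ⟨x0, hx0, hmin⟩ := hK.exists_isMinOn hne continuous_norm.continuousOn
        have hn0 : 0 < ‖x0‖ := norm_pos_iff.2 (hK0 hx0)
        refine ⟨C1 / ‖x0‖ ^ 4, Eventually.of_forall fun x hx => ?_⟩
        refine (u5 x (hK0 hx)).2.2.trans ?_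
        apply div_le_div_of_nonneg_left hC1.le (by positivity)
        exact pow_le_pow_left₀ hn0.le (hmin hx) 4
      · exact ⟨0, Eventually.of_forall fun x hx => absurd ⟨x, hx⟩ hne⟩)
    (by
      refine ⟨C1, D, D_cobdd, Eventually.of_forall fun x hx => ?_⟩
      have hx0 := D_sub hx
      have hn : 0 < ‖x‖ := norm_pos_iff.2 hx0
      have := (u5 x hx0).2.2
      rw [e4]
      rw [le_div_iff₀ (by positivity)] at this
      linarith)
    ⟨_, solU _ hopen0 subset_rfl⟩ D D (fun x => Real.exp (aa l x)) v isOpen_D' hD0 D_cobdd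
    isOpen_D' hD0 D_cobdd (solU D isOpen_D' hD0)
    (by
      refine ⟨v1, v2, g, v3, ?_, ?_⟩
      · simp only [e4]; exact v4
      · intro φ h1 h2 h3
        refine ⟨(v5 φ h1 h2 h3).1, ?_⟩
        simp only [e2, e3]
        exact (v5 φ h1 h2 h3).2)
  -- ratios
  have r1 : ∀ R : ℝ, 1 < R → Real.exp (aa l (R • e0)) / v (R • e0) = Real.exp M := by
    intro R hR
    rw [v6 R hR, ← Real.exp_sub]
    congr 1; ring
  have r2 : ∀ R : ℝ, 1 < R → Real.exp (aa l ((-R) • e0)) / v ((-R) • e0) = 1 := by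
    intro R hR
    rw [v7 R hR, div_self (Real.exp_pos _).ne']
  have r3 : ∀ R : ℝ, 1 < R → v (R • e0) / Real.exp (aa l (R • e0)) = Real.exp (-M) := by
    intro R hR
    rw [v6 R hR, ← Real.exp_sub]
    congr 1; ring
  have r4 : ∀ R : ℝ, 1 < R → v ((-R) • e0) / Real.exp (aa l ((-R) • e0)) = 1 := by
    intro R hR
    rw [v7 R hR, div_self (Real.exp_pos _).ne']
  have n1 : Real.exp M ≠ 1 := by
    rw [Ne, Real.exp_eq_one_iff]; exact hM.ne'
  have n2 : Real.exp (-M) ≠ 1 := by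
    rw [Ne, Real.exp_eq_one_iff]; linarith
  rcases key with ⟨C, -, hC⟩ | hC | ⟨C, -, hC⟩ | hC
  · exact no_limit (f := fun x => Real.exp (aa l x) / v x) n1 r1 r2 C hC
  · exact no_limit (f := fun x => Real.exp (aa l x) / v x) n1 r1 r2 0 hC
  · exact no_limit (f := fun x => v x / Real.exp (aa l x)) n2 r3 r4 C hC
  · exact no_limit (f := fun x => v x / Real.exp (aa l x)) n2 r3 r4 0 hC

end Pool.Agent.Helper82.PL
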