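import Mathlib

/-!
# MP_8d56bc_an: weak solutions of the quasilinear equation

The equation is `-Δ_p v + V |v|^(p-2) v = 0`, `Δ_p v = div (|∇v|^(p-2) ∇v)`.
-/

set_option autoImplicit false

open MeasureTheory Set

namespace Pool.Agent.Helper82.PLO

/-- `v` is a weak solution of `-Δ_p v + V |v|^(p-2) v = 0` in the open set `D` of `ℝᵈ`:
`v` belongs to `W^{1,p}_loc(D)`, i.e. `v` and `|v|^p` are locally integrable in `D` and `v` has a weak
gradient `g` in `D` with `g` and `|g|^p` locally integrable in `D`, and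
`∫_D (|g|^(p-2) g·∇φ + V |v|^(p-2) v φ) dx = 0` for all `φ ∈ C_0^∞(D)`. -/
def IsWeakSol {d : ℕ} (p : ℝ) (V : EuclideanSpace ℝ (Fin d) → ℝ)
    (D : Set (EuclideanSpace ℝ (Fin d))) (v : EuclideanSpace ℝ (Fin d) → ℝ) : Prop :=
  LocallyIntegrableOn v D ∧ LocallyIntegrableOn (fun x => |v x| ^ p) D ∧
  ∃ g : EuclideanSpace ℝ (Fin d) → EuclideanSpace ℝ (Fin d),
    LocallyIntegrableOn g D ∧ LocallyIntegrableOn (fun x => ‖g x‖ ^ p) D ∧
    ∀ φ : EuclideanSpace ℝ (Fin d) → ℝ, ContDiff ℝ (⊤ : ℕ∞) φ → HasCompactSupport φ →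
      tsupport φ ⊆ D →
      (∫ x in D, v x • gradient φ x) = -∫ x in D, φ x • g x ∧
      ∫ x in D, (‖g x‖ ^ (p - 2) * inner ℝ (g x) (gradient φ x) +
        V x * (|v x| ^ (p - 2) * v x) * φ x) = 0

end Pool.Agent.Helper82.PLO
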