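import Pool.Agent.Helper82.PL.Final2
import Pool.Agent.Helper82.PL.OwnDefs

/-!
# MP_8d56bc_an: the two solutions, with the bounds `exp (-M) u ≤ v ≤ u`
(the theorem `two_sol` of `Final.lean` with one more conclusion)
-/

set_option autoImplicit false

open MeasureTheory Set Filter Topology

namespace Pool.Agent.Helper82.PL

theorem two_sol2 (hExist : stmtExist) (hUp : stmtTruncUp) (hDown : stmtTruncDown)
    (hPolar : stmtPolar) (hJetA : stmtJetA) (hJetS : stmtJetS) (hJetAA : stmtJetAA)
    (hBound : stmtBoundS) (hEven : stmtEvenS) (hBar : stmtBarrier) (hU : stmtU) (hOm : stmtOm) :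
    ∃ l M : ℝ, 0 < l ∧ l ≤ 1 ∧ 0 < M ∧ ∃ (v : E2 → ℝ) (g : E2 → E2), ContinuousOn v D ∧
      (∀ x ∈ D, 0 < v x) ∧
      LocallyIntegrableOn g D ∧ LocallyIntegrableOn (fun x => ‖g x‖ ^ 4) D ∧
      (∀ φ : E2 → ℝ, ContDiff ℝ (⊤ : ℕ∞) φ → HasCompactSupport φ → tsupport φ ⊆ D →
        ((∫ x, v x • gradient φ x) = -∫ x, φ x • g x) ∧
        (∫ x, (‖g x‖ ^ 2 * inner ℝ (g x) (gradient φ x) + VV l x * v x ^ 3 * φ x)) = 0) ∧
      (∀ x ∈ D, Real.exp (aa l x - M) ≤ v x ∧ v x ≤ Real.exp (aa l x)) ∧
      (∀ R : ℝ, 1 < R → v (R • e0) = Real.exp (aa l (R • e0) - M)) ∧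
      (∀ R : ℝ, 1 < R → v ((-R) • e0) = Real.exp (aa l ((-R) • e0))) := by
  obtain ⟨l, hl, hl1, x0, hx0, hx3, hbar⟩ := hBar
  obtain ⟨c, hc, hs⟩ := s0_facts hBound hEven
  obtain ⟨u1, u2, u3, u4, C1, hC1, u5⟩ := hU l hl hl1
  obtain ⟨o1, o2, o3, o4, C2, hC2, o5⟩ := hOm
  set x1 := x0 / 2 with hx1
  have h1 : 0 < x1 := by rw [hx1]; linarith
  have h01 : x1 < x0 := by rw [hx1]; linarith
  set M := c * x1 ^ 8 with hM
  have hMpos : 0 < M := by rw [hM]; positivity
  have hbase := base_ok (l := l) hMpos hC1 hC2 u1 u4 u5 o1 o2 o5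
  have hs1 : ∀ x t : ℝ, |x| < 1 / 3 → c * |x| ^ 8 ≤ s0 l x t :=
    fun x t hx => (hs l hl hl1 x t hx).1
  have hs_zero : ∀ t : ℝ, s0 l 0 t = 0 := fun t => (hs l hl hl1 0 t (by simp)).2
  have hs_nonneg : ∀ p : E2, |th p| < 1 / 3 → 0 ≤ s0 l (th p) (tt p) := fun p hp =>
    le_trans (by positivity) (hs1 _ _ hp)
  classical
  have hMC : M ≤ C1 + M * C2 + M := by
    have : 0 < M * C2 := by positivity
    linarith
  obtain ⟨v, g, v1, v2, v3, v4, v5⟩ := hExist (fun p => aa l p - M * om p) (VV l)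
    (C1 + M * C2 + M) hbase
    (fun p => if p ∈ Sq (-1) x0 then max (M * om p - M) (-s0 l (th p) (tt p)) else M * om p - M)
    (fun p => if p ∈ Sq 1 x0 then min (M * om p) (s0 l (th p) (tt p)) else M * om p)
    (fun x _ => by
      have h2 := mul_nonneg hMpos.le (o2 x).1
      split_ifs
      · refine le_trans ?_ (le_max_left _ _)
        linarith
      · linarith)
    (fun x _ => by
      have h2 := mul_le_mul_of_nonneg_left (o2 x).2 hMpos.le
      split_ifs
      · refine (min_le_left _ _).trans ?_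
        linarith
      · linarith)
    (fun w hw => by
      obtain ⟨w', a, j, b, k1, k2⟩ := proj_ok hUp hDown hPolar hJetA hJetS hJetAA hl hl1 h1 h01
        hx3 hbar hc hs1 hM u1 u2 u3 o2 o3 o4 hbase w hw
      refine ⟨w', a, fun x hx => ⟨?_, ?_⟩, j⟩
      · show (if x ∈ Sq (-1) x0 then max (M * om x - M) (-s0 l (th x) (tt x))
          else M * om x - M) ≤ w' x
        split_ifs with h
        · exact max_le (b x hx).1 (k2 x h)
        · exact (b x hx).1
      · show w' x ≤ (if x ∈ Sq 1 x0 then min (M * om x) (s0 l (th x) (tt x)) else M * om x)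
        split_ifs with h
        · exact le_min (b x hx).2 (k1 x h)
        · exact (b x hx).2)
  refine ⟨l, M, hl, hl1, hMpos, v, g, v1, fun x hx => (Real.exp_pos _).trans_le (v2 x hx).1,
    v3, v4, v5, ?_, ?_, ?_⟩
  · intro x hx
    have h := v2 x hx
    constructor
    · refine le_trans (Real.exp_le_exp.2 ?_) h.1
      show aa l x - M ≤ (aa l x - M * om x) +
        (if x ∈ Sq (-1) x0 then max (M * om x - M) (-s0 l (th x) (tt x)) else M * om x - M)
      split_ifs
      · have := le_max_left (M * om x - M) (-s0 l (th x) (tt x))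
        linarith
      · linarith
    · refine h.2.trans (Real.exp_le_exp.2 ?_)
      show (aa l x - M * om x) +
        (if x ∈ Sq 1 x0 then min (M * om x) (s0 l (th x) (tt x)) else M * om x) ≤ aa l x
      split_ifs
      · have := min_le_left (M * om x) (s0 l (th x) (tt x))
        linarith
      · linarith
  · intro R hR
    have hp0 : (R • e0 : E2) 0 = R := by simp [e0_0]
    have hp1 : (R • e0 : E2) 1 = 0 := by simp [e0_1]
    have hth : th (R • e0 : E2) = 0 := by unfold th; rw [hp1, zero_div, Real.arctan_zero]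
    have hD : (R • e0 : E2) ∈ D := by
      show 1 < ‖R • e0‖
      rw [norm_smul, norm_e0, mul_one, Real.norm_eq_abs, abs_of_pos (by linarith)]
      exact hR
    have hS : (R • e0 : E2) ∈ Sq 1 x0 := by
      refine ⟨hD, ?_, ?_⟩
      · rw [hp0, one_mul]; linarith
      · rw [hth, abs_zero]; exact hx0
    have hS' : (R • e0 : E2) ∉ Sq (-1) x0 := by
      intro h
      have := h.2.1
      rw [hp0] at this
      linarith
    have hom : om (R • e0 : E2) = 1 := by
      apply o3
      · rw [hp0]; linarith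
      · rw [hth, abs_zero]; norm_num
    have := v2 _ hD
    simp only [if_pos hS, if_neg hS', hth, hs_zero, hom, mul_one, sub_self,
      min_eq_right hMpos.le, add_zero] at this
    exact le_antisymm this.2 this.1
  · intro R hR
    have hp0 : ((-R) • e0 : E2) 0 = -R := by simp [e0_0]
    have hp1 : ((-R) • e0 : E2) 1 = 0 := by simp [e0_1]
    have hth : th ((-R) • e0 : E2) = 0 := by unfold th; rw [hp1, zero_div, Real.arctan_zero]
    have hD : ((-R) • e0 : E2) ∈ D := by
      show 1 < ‖(-R) • e0‖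
      rw [norm_smul, norm_e0, mul_one, Real.norm_eq_abs, abs_neg, abs_of_pos (by linarith)]
      exact hR
    have hS : ((-R) • e0 : E2) ∈ Sq (-1) x0 := by
      refine ⟨hD, ?_, ?_⟩
      · rw [hp0]; linarith
      · rw [hth, abs_zero]; exact hx0
    have hS' : ((-R) • e0 : E2) ∉ Sq 1 x0 := by
      intro h
      have := h.2.1
      rw [hp0] at this
      linarith
    have hom : om ((-R) • e0 : E2) = 0 := by
      apply o4
      rw [hp0]; linarith
    have := v2 _ hD
    simp only [if_pos hS, if_neg hS', hth, hs_zero, hom, mul_zero, zero_sub, neg_zero, sub_zero,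
      add_zero, max_eq_right (neg_nonpos.2 hMpos.le)] at this
    exact le_antisymm this.2 this.1

end Pool.Agent.Helper82.PL
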