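import Pool.Agent.Helper82.PL.Own

/-!
# MP_8d56bc_an: bridging lemmas for the own statement
-/

set_option autoImplicit false

open MeasureTheory Set Filter Topology

namespace Pool.Agent.Helper82.PL

open Pool.Agent.Helper82.PLO (IsWeakSol)

lemma grad_off {φ : E2 → ℝ} {x : E2} (hx : x ∉ tsupport φ) : gradient φ x = 0 := by
  unfold gradient
  have h : fderiv ℝ φ x = 0 := by
    by_contra hne
    exact hx (support_fderiv_subset ℝ hne)
  rw [h, map_zero]

lemma weak_of {V v : E2 → ℝ} {g : E2 → E2} {S : Set E2} (hS : IsOpen S) (hv : ContinuousOn v S)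
    (hg : LocallyIntegrableOn g S) (hg4 : LocallyIntegrableOn (fun x => ‖g x‖ ^ 4) S)
    (h : ∀ φ : E2 → ℝ, ContDiff ℝ (⊤ : ℕ∞) φ → HasCompactSupport φ → tsupport φ ⊆ S →
      ((∫ x, v x • gradient φ x) = -∫ x, φ x • g x) ∧
      (∫ x, (‖g x‖ ^ 2 * inner ℝ (g x) (gradient φ x) + V x * v x ^ 3 * φ x)) = 0) :
    IsWeakSol 4 V S v := by
  have e2 : ∀ y : ℝ, y ^ ((4 : ℝ) - 2) = y ^ 2 := by
    intro y
    rw [show (4 : ℝ) - 2 = ((2 : ℕ) : ℝ) by norm_num, Real.rpow_natCast]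
  have e4 : ∀ y : ℝ, y ^ (4 : ℝ) = y ^ 4 := by
    intro y
    rw [show (4 : ℝ) = ((4 : ℕ) : ℝ) by norm_num, Real.rpow_natCast]
  refine ⟨hv.locallyIntegrableOn hS.measurableSet, ?_, g, hg, ?_, ?_⟩
  · simp only [e4]
    exact (hv.abs.pow 4).locallyIntegrableOn hS.measurableSet
  · simp only [e4]; exact hg4
  · intro φ h1 h2 h3
    obtain ⟨k1, k2⟩ := h φ h1 h2 h3
    have z1 : ∀ x, x ∉ S → φ x = 0 := fun x hx =>
      image_eq_zero_of_notMem_tsupport fun hx' => hx (h3 hx')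
    have z2 : ∀ x, x ∉ S → gradient φ x = 0 := fun x hx => grad_off fun hx' => hx (h3 hx')
    refine ⟨?_, ?_⟩
    · rw [setIntegral_eq_integral_of_forall_compl_eq_zero (fun x hx => by rw [z2 x hx, smul_zero]),
        setIntegral_eq_integral_of_forall_compl_eq_zero (fun x hx => by rw [z1 x hx, zero_smul])]
      exact k1
    · rw [setIntegral_eq_integral_of_forall_compl_eq_zero
        (fun x hx => by rw [z1 x hx, z2 x hx, inner_zero_right, mul_zero, mul_zero, add_zero])]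
      rw [← k2]
      congr 1
      funext x
      rw [e2, e2, sq_abs]
      ring

lemma axis_pos (R : ℝ) : (!₂[R, 0] : E2) = R • e0 := by
  ext i
  fin_cases i <;> simp [e0]

lemma axis_neg (R : ℝ) : (!₂[-R, 0] : E2) = (-R) • e0 := axis_pos (-R)

lemma no_limit_ereal {f : E2 → ℝ} {a b : ℝ} (hab : a ≠ b)
    (h1 : ∀ R : ℝ, 1 < R → f (R • e0) = a) (h2 : ∀ R : ℝ, 1 < R → f ((-R) • e0) = b) (C : EReal) :
    ¬ Tendsto (fun x => ((f x : ℝ) : EReal)) (Bornology.cobounded E2) (𝓝 C) := by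
  intro h
  have t1 := h.comp (tends_cob 1 (Or.inl rfl))
  have t2 := h.comp (tends_cob (-1) (Or.inr rfl))
  have s1 : Tendsto ((fun x => ((f x : ℝ) : EReal)) ∘ fun R : ℝ => ((1 : ℝ) * R) • e0) atTop
      (𝓝 (a : EReal)) := by
    apply tendsto_const_nhds.congr'
    filter_upwards [eventually_gt_atTop (1 : ℝ)] with R hR
    show (a : EReal) = f ((1 * R) • e0)
    rw [one_mul, h1 R hR]
  have s2 : Tendsto ((fun x => ((f x : ℝ) : EReal)) ∘ fun R : ℝ => ((-1 : ℝ) * R) • e0) atTop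
      (𝓝 (b : EReal)) := by
    apply tendsto_const_nhds.congr'
    filter_upwards [eventually_gt_atTop (1 : ℝ)] with R hR
    show (b : EReal) = f (((-1) * R) • e0)
    rw [neg_one_mul, h2 R hR]
  exact hab (EReal.coe_injective ((tendsto_nhds_unique s1 t1).trans (tendsto_nhds_unique s2 t2).symm))

lemma dv_cont {F : E2 → E2} {S : Set E2} (hS : IsOpen S) (h : ContDiffOn ℝ 1 F S) :
    ContinuousOn (dv F) S := by
  have h1 : ContinuousOn (fderiv ℝ F) S := h.continuousOn_fderiv_of_isOpen hS le_rfl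
  have h2 : ∀ e : E2, ContinuousOn (fun x => fderiv ℝ F x e) S := fun e =>
    h1.clm_apply continuousOn_const
  exact ((cont_coord 0).comp_continuousOn (h2 e0)).add ((cont_coord 1).comp_continuousOn (h2 e1))

lemma grad_cont {a : E2 → ℝ} {S : Set E2} (hS : IsOpen S) (h : ContDiffOn ℝ 1 a S) :
    ContinuousOn (gradient a) S := by
  have h1 : ContinuousOn (fderiv ℝ a) S := h.continuousOn_fderiv_of_isOpen hS le_rfl
  exact (InnerProductSpace.toDual ℝ E2).symm.continuous.comp_continuousOn h1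

/-- the own statement, from the packets -/
theorem own (hExist : stmtExist) (hUp : stmtTruncUp) (hDown : stmtTruncDown)
    (hPolar : stmtPolar) (hJetA : stmtJetA) (hJetS : stmtJetS) (hJetAA : stmtJetAA)
    (hBound : stmtBoundS) (hEven : stmtEvenS) (hBar : stmtBarrier) (hU : stmtU) (hOm : stmtOm)
    (hSolU : stmtSolU) :
    ∃ (V u v : E2 → ℝ) (C M : ℝ), 0 < C ∧ 0 < M ∧
      ContinuousOn V {x | x ≠ 0} ∧ (∀ x, x ≠ 0 → ‖x‖ ^ 4 * |V x| ≤ C) ∧
      ContDiffOn ℝ 1 u {x | x ≠ 0} ∧ (∀ x, x ≠ 0 → C⁻¹ ≤ u x ∧ u x ≤ C) ∧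
      IsWeakSol 4 V {x | x ≠ 0} u ∧
      ContinuousOn v {x | 1 < ‖x‖} ∧ IsWeakSol 4 V {x | 1 < ‖x‖} v ∧
      (∀ x, 1 < ‖x‖ → Real.exp (-M) * u x ≤ v x ∧ v x ≤ u x) ∧
      (∀ R : ℝ, 1 < R → u !₂[R, 0] = Real.exp M * v !₂[R, 0] ∧ u !₂[-R, 0] = v !₂[-R, 0]) ∧
      ∀ c : EReal, ¬ Tendsto (fun x => ((u x / v x : ℝ) : EReal)) (Bornology.cobounded E2)
        (𝓝 c) := by
  obtain ⟨l, M, hl, hl1, hM, v, g, v1, v2, v3, v4, v5, v6, v7, v8⟩ := two_sol2 hExist hUp hDown
    hPolar hJetA hJetS hJetAA hBound hEven hBar hU hOm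
  obtain ⟨u1, u2, u3, u4, C1, hC1, u5⟩ := hU l hl hl1
  have hset : {x : E2 | x ≠ 0} = ({0}ᶜ : Set E2) := rfl
  have hopen0 : IsOpen ({0}ᶜ : Set E2) := isOpen_compl_singleton
  have cg : ContinuousOn (fun x => Real.exp (aa l x) • gradient (aa l) x) ({0}ᶜ : Set E2) :=
    (u1.continuousOn.rexp).smul (grad_cont hopen0 u1)
  refine ⟨VV l, fun x => Real.exp (aa l x), v, max C1 (Real.exp C1), M,
    lt_max_of_lt_left hC1, hM, ?_, ?_, ?_, ?_, ?_, v1, ?_, ?_, ?_, ?_⟩
  · rw [hset]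
    have h1 : ContinuousOn (LL (aa l)) ({0}ᶜ : Set E2) := by
      have h2 := dv_cont hopen0 u2
      have h3 := (grad_cont hopen0 u1).norm.pow 4
      exact h2.add (continuousOn_const.mul h3)
    exact h1.congr fun x hx => (u3 x hx).symm
  · intro x hx
    have hn : 0 < ‖x‖ := norm_pos_iff.2 hx
    have h1 := (u5 x hx).2.2
    rw [le_div_iff₀ (by positivity)] at h1
    have h2 := le_max_left C1 (Real.exp C1)
    linarith
  · rw [hset]
    exact u1.exp
  · intro x hx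
    have h1 := abs_le.1 (u5 x hx).1
    have h2 := le_max_right C1 (Real.exp C1)
    constructor
    · have h3 : (max C1 (Real.exp C1))⁻¹ ≤ (Real.exp C1)⁻¹ :=
        inv_anti₀ (Real.exp_pos _) h2
      refine h3.trans ?_
      rw [← Real.exp_neg]
      exact Real.exp_le_exp.2 h1.1
    · exact (Real.exp_le_exp.2 h1.2).trans h2
  · rw [hset]
    refine weak_of hopen0 u1.continuousOn.rexp (cg.locallyIntegrableOn hopen0.measurableSet)
      ((cg.norm.pow 4).locallyIntegrableOn hopen0.measurableSet) ?_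
    intro φ h1 h2 h3
    exact hSolU _ hopen0 (aa l) (VV l) u1 u2 (fun x hx => u3 x hx) φ h1 h2 h3
  · exact weak_of isOpen_D' v1 v3 v4 v5
  · intro x hx
    have h := v6 x hx
    refine ⟨?_, h.2⟩
    rw [← Real.exp_add]
    refine le_trans (Real.exp_le_exp.2 ?_) h.1
    linarith
  · intro R hR
    rw [axis_pos, axis_neg, v7 R hR, v8 R hR]
    refine ⟨?_, rfl⟩
    show Real.exp (aa l (R • e0)) = Real.exp M * Real.exp (aa l (R • e0) - M)
    rw [← Real.exp_add]
    congr 1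
    ring
  · have r1 : ∀ R : ℝ, 1 < R → Real.exp (aa l (R • e0)) / v (R • e0) = Real.exp M := by
      intro R hR
      rw [v7 R hR, ← Real.exp_sub]
      congr 1; ring
    have r2 : ∀ R : ℝ, 1 < R → Real.exp (aa l ((-R) • e0)) / v ((-R) • e0) = 1 := by
      intro R hR
      rw [v8 R hR, div_self (Real.exp_pos _).ne']
    have n1 : Real.exp M ≠ 1 := by
      rw [Ne, Real.exp_eq_one_iff]; exact hM.ne'
    intro c
    exact no_limit_ereal (f := fun x => Real.exp (aa l x) / v x) n1 r1 r2 c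

end Pool.Agent.Helper82.PL
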